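import Mathlib

/-!
From short windows to longer windows.
-/

set_option autoImplicit false

namespace Pool.Agent.H43.SW

open Finset

/-- the sum over the window `(M, M + H]` -/
noncomputable def Sx (x : ℤ → ℝ) (H : ℕ) (M : ℤ) : ℝ := ∑ j ∈ Icc 1 H, x (M + (j : ℕ))

lemma Sx_range (x : ℤ → ℝ) (H : ℕ) (M : ℤ) : Sx x H M = ∑ i ∈ range H, x (M + i + (1 : ℕ)) := by
  unfold Sx
  have : Icc 1 H = Ico 1 (H + 1) := by
    ext j
    rw [mem_Icc, mem_Ico]
    omega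
  rw [this, sum_Ico_eq_sum_range, Nat.add_sub_cancel]
  refine sum_congr rfl fun i _ => ?_
  push_cast
  congr 1
  ring

lemma shift_bound (x : ℤ → ℝ) (H : ℕ) (M : ℤ) (P : ℝ) (j : ℕ) (hj : 1 ≤ j)
    (hx : ∀ n : ℕ, 1 ≤ n → n ≤ H + j → |x (M + n)| ≤ P) :
    |∑ i ∈ range H, x (M + i + j) - Sx x H M| ≤ 2 * P * j := by
  have hP : 0 ≤ P := (abs_nonneg _).trans (hx 1 le_rfl (by omega))
  induction j, hj using Nat.le_induction with
  | base =>
    rw [Sx_range, sub_self, abs_zero]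
    positivity
  | succ j hj ih =>
    have h1 := ih fun n hn1 hn2 => hx n hn1 (by omega)
    have h2 : ∑ i ∈ range H, x (M + i + ((j + 1 : ℕ) : ℤ)) + x (M + (0 : ℕ) + j) = ∑ i ∈ range H, x (M + i + j) + x (M + H + j) := by
      have e1 := sum_range_succ (fun i : ℕ => x (M + i + j)) H
      have e2 := sum_range_succ' (fun i : ℕ => x (M + i + j)) H
      rw [e1] at e2
      rw [e2]
      congr 1
      refine sum_congr rfl fun i _ => ?_
      congr 1
      push_cast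
      ring
    have h3 := hx j hj (by omega)
    have h4 := hx (H + j) (by omega) (by omega)
    have e3 : M + ((H + j : ℕ) : ℤ) = M + H + j := by push_cast; ring
    have e4 : M + (0 : ℕ) + (j : ℤ) = M + j := by push_cast; ring
    rw [e3] at h4
    rw [e4] at h2
    have e5 : ∑ i ∈ range H, x (M + i + ((j + 1 : ℕ) : ℤ)) - Sx x H M =
        (∑ i ∈ range H, x (M + i + j) - Sx x H M) + (x (M + H + j) - x (M + j)) := by linarith
    rw [e5]
    refine (abs_add_le _ _).trans ?_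
    have h5 := abs_sub (x (M + H + j)) (x (M + j))
    push_cast
    nlinarith

/-- averaging over shifts -/
lemma avg (x : ℤ → ℝ) (H H0 : ℕ) (M : ℤ) (P : ℝ) (h0 : 1 ≤ H0)
    (hx : ∀ n : ℕ, 1 ≤ n → n ≤ H + H0 → |x (M + n)| ≤ P) :
    |Sx x H M| ≤ (∑ i ∈ range H, |Sx x H0 (M + i)|) / H0 + 2 * P * H0 := by
  have hP : 0 ≤ P := (abs_nonneg _).trans (hx 1 le_rfl (by omega))
  have hH0 : (0 : ℝ) < H0 := by exact_mod_cast h0
  have h1 : |∑ j ∈ Icc 1 H0, (∑ i ∈ range H, x (M + i + (j : ℕ)) - Sx x H M)| ≤ H0 * (2 * P * H0) := by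
    refine (abs_sum_le_sum_abs _ _).trans ?_
    calc ∑ j ∈ Icc 1 H0, |∑ i ∈ range H, x (M + i + (j : ℕ)) - Sx x H M| ≤ ∑ j ∈ Icc 1 H0, 2 * P * H0 := by
          refine sum_le_sum fun j hj => ?_
          rw [mem_Icc] at hj
          refine (shift_bound x H M P j hj.1 fun n hn1 hn2 => hx n hn1 (by omega)).trans ?_
          have : (j : ℝ) ≤ H0 := by exact_mod_cast hj.2
          gcongr
      _ = _ := by rw [sum_const, Nat.card_Icc, nsmul_eq_mul, Nat.add_sub_cancel]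
  have h2 : ∑ j ∈ Icc 1 H0, (∑ i ∈ range H, x (M + i + (j : ℕ)) - Sx x H M) =
      ∑ i ∈ range H, Sx x H0 (M + i) - H0 * Sx x H M := by
    rw [sum_sub_distrib, sum_const, Nat.card_Icc, nsmul_eq_mul, Nat.add_sub_cancel, sum_comm]
    rfl
  rw [h2] at h1
  have h3 : |(H0 : ℝ) * Sx x H M| ≤ ∑ i ∈ range H, |Sx x H0 (M + i)| + H0 * (2 * P * H0) := by
    have e : (H0 : ℝ) * Sx x H M = ∑ i ∈ range H, Sx x H0 (M + i) - (∑ i ∈ range H, Sx x H0 (M + i) - H0 * Sx x H M) := by ring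
    rw [e]
    refine (abs_sub _ _).trans (add_le_add (abs_sum_le_sum_abs _ _) h1)
  rw [abs_mul, abs_of_pos hH0] at h3
  rw [← mul_le_mul_iff_of_pos_left hH0, mul_add, mul_div_cancel₀ _ hH0.ne']
  exact h3

/-- the first moments of the sums over longer windows -/
theorem avg_sum (x : ℤ → ℝ) (N H H0 : ℕ) (P : ℝ) (h0 : 1 ≤ H0) (hHN : H + H0 ≤ N)
    (hx : ∀ n : ℕ, N ≤ n → n ≤ 3 * N → |x n| ≤ P) :
    ∑ M ∈ Ico N (2 * N), |Sx x H (M : ℤ)| ≤
      H * (∑ M ∈ Ico N (3 * N), |Sx x H0 (M : ℤ)|) / H0 + 2 * P * H0 * N := by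
  have hH0 : (0 : ℝ) < H0 := by exact_mod_cast h0
  have h1 : ∀ M ∈ Ico N (2 * N), |Sx x H (M : ℤ)| ≤ (∑ i ∈ range H, |Sx x H0 ((M : ℤ) + i)|) / H0 + 2 * P * H0 := by
    intro M hM
    rw [mem_Ico] at hM
    apply avg x H H0 M P h0
    intro n hn1 hn2
    have := hx (M + n) (by omega) (by omega)
    exact_mod_cast this
  refine (sum_le_sum h1).trans ?_
  rw [sum_add_distrib, sum_const, Nat.card_Ico, nsmul_eq_mul, ← sum_div]
  have e1 : ((2 * N - N : ℕ) : ℝ) = N := by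
    congr 1
    omega
  rw [e1]
  refine add_le_add ?_ (le_of_eq (by ring))
  gcongr
  rw [sum_comm]
  calc ∑ i ∈ range H, ∑ M ∈ Ico N (2 * N), |Sx x H0 ((M : ℤ) + i)| ≤
        ∑ i ∈ range H, ∑ M ∈ Ico N (3 * N), |Sx x H0 (M : ℤ)| := by
        refine sum_le_sum fun i hi => ?_
        rw [mem_range] at hi
        have e2 : ∑ M ∈ Ico N (2 * N), |Sx x H0 ((M : ℤ) + i)| = ∑ M ∈ Ico (N + i) (2 * N + i), |Sx x H0 (M : ℤ)| := by
          rw [← sum_Ico_add']
          refine sum_congr rfl fun M _ => ?_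
          push_cast
          rfl
        rw [e2]
        apply sum_le_sum_of_subset_of_nonneg
        · intro M hM
          rw [mem_Ico] at hM ⊢
          omega
        · intro _ _ _
          exact abs_nonneg _
    _ = _ := by rw [sum_const, card_range, nsmul_eq_mul]

/-- Chebyshev -/
lemma markov {ι : Type*} (s : Finset ι) (g : ι → ℝ) (T A : ℝ) (hT : 0 < T) (hA : ∑ i ∈ s, |g i| ≤ A) :
    ((s.filter (fun i => T < |g i|)).card : ℝ) ≤ A / T := by
  rw [le_div_iff₀ hT]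
  calc ((s.filter (fun i => T < |g i|)).card : ℝ) * T = ∑ i ∈ s.filter (fun i => T < |g i|), T := by
        rw [sum_const, nsmul_eq_mul]
    _ ≤ ∑ i ∈ s.filter (fun i => T < |g i|), |g i| := sum_le_sum fun i hi => (mem_filter.1 hi).2.le
    _ ≤ ∑ i ∈ s, |g i| := sum_le_sum_of_subset_of_nonneg (filter_subset _ _) fun _ _ _ => abs_nonneg _
    _ ≤ A := hA

/-- Cauchy's inequality -/
lemma cauchy1 {ι : Type*} (s : Finset ι) (g : ι → ℝ) (A B : ℝ) (hB : 0 ≤ B) (hA : ∑ i ∈ s, (g i) ^ 2 ≤ A)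
    (h : (s.card : ℝ) * A ≤ B ^ 2) : ∑ i ∈ s, |g i| ≤ B := by
  have h1 := sq_sum_le_card_mul_sum_sq (s := s) (f := fun i => |g i|)
  simp only [sq_abs] at h1
  have h2 : (∑ i ∈ s, |g i|) ^ 2 ≤ B ^ 2 := h1.trans (le_trans (by gcongr) h)
  exact (abs_le_of_sq_le_sq' h2 hB).2

end Pool.Agent.H43.SW
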