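import Pool.Agent.H43.SW.Mom3
import Pool.Agent.H43.SW.Avg

/-!
Almost all constant terms: the sums over short windows are small for almost all windows.
-/

set_option autoImplicit false

namespace Pool.Agent.H43.SW

open Finset Filter
open Pool.Agent.H43.SL
open Pool.Agent.H442R2.EHI (evt_log_pow evt_log_ge)
open Pool.Agent.W81.R1 (gI)

theorem bad_gI {θ : ℝ} (hθ0 : 0 < θ) (hθ1 : θ ≤ 1) (h : SIg θ) (U V B : ℕ) (ε : ℝ) (hε : 0 < ε) :
    ∃ E₀ : ℕ, ∀ E₁ : ℕ, ∀ᶠ X : ℕ in atTop, ∀ z : ℕ, Real.log X ^ E₀ ≤ z → (z : ℝ) ≤ Real.log X ^ E₁ →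
    ∀ H : ℕ, Real.log X ^ (U + 2 * V + 10) ≤ H → (H : ℝ) ≤ Real.log X ^ B →
    ∃ Bad : Finset ℤ, (Bad.card : ℝ) ≤ X / Real.log X ^ U ∧ ∀ a ∈ Icc (-(X : ℤ)) X, a ∉ Bad →
    ∀ N : ℕ, 2 * (X : ℝ) ^ (θ + ε) ≤ N → (4 * N : ℝ) ^ (1 + 2 * θ) ≤ (X : ℝ) ^ (1 - ε) →
    ∀ s : ℤ, (s = 1 ∨ s = -1) →
    ∑ M ∈ Ico N (3 * N), |Wn (gI z) s H (s * a) (M : ℤ)| ≤ N * H / Real.log X ^ V := by
  classical
  obtain ⟨E₀, h1⟩ := mom3 hθ0 hθ1 h (U + 2 * V + 5) B ε hε
  refine ⟨E₀, fun E₁ => ?_⟩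
  filter_upwards [h1 E₁, eventually_ge_atTop 2, evt_log_ge 8] with X hmom hX2 hL8 z hz1 hz2 H hH1 hH2
  set L := Real.log X with hLdef
  have hL0 : 0 < L := by linarith
  have hL1 : 1 ≤ L := by linarith
  have hp : ∀ n : ℕ, 0 < L ^ n := fun n => by positivity
  have hp1 : ∀ n : ℕ, 1 ≤ L ^ n := fun n => one_le_pow₀ hL1
  have hX0 : (0 : ℝ) < X := by exact_mod_cast (by omega : 0 < X)
  have hX1 : (1 : ℝ) ≤ X := by exact_mod_cast (by omega : 1 ≤ X)
  have hH0 : (0 : ℝ) < H := lt_of_lt_of_le (hp _) hH1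
  set J := Nat.log 2 X + 1 with hJ
  have hJL : (J : ℝ) ≤ 2 * L := by
    have e1 : 2 ^ Nat.log 2 X ≤ X := Nat.pow_log_le_self 2 (by omega)
    have e2 : ((2 ^ Nat.log 2 X : ℕ) : ℝ) ≤ X := by exact_mod_cast e1
    have e3 := Real.log_le_log (by positivity) e2
    push_cast at e3
    rw [Real.log_pow] at e3
    have e4 : (0.69 : ℝ) < Real.log 2 := by have := Real.log_two_gt_d9; linarith
    have e5 : (0 : ℝ) ≤ Nat.log 2 X := Nat.cast_nonneg _
    have e6 : (Nat.log 2 X : ℝ) * 0.69 ≤ L := by nlinarith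
    rw [hJ]
    push_cast
    linarith
  -- the exceptional sets
  set Q : ℕ → ℤ → ℤ → ℝ := fun k s c => ∑ M ∈ Ico (2 ^ k) (2 * 2 ^ k), (Wn (gI z) s H c ((M : ℕ) : ℤ)) ^ 2 with hQ
  set Bd : ℕ → ℤ → Finset ℤ := fun k s => (Icc (-(X : ℤ)) X).filter (fun c =>
    ((X : ℝ) ^ (θ + ε) ≤ ((2 ^ k : ℕ) : ℝ) ∧ (((2 ^ k : ℕ) : ℝ)) ^ (1 + 2 * θ) ≤ (X : ℝ) ^ (1 - ε)) ∧
    ((2 ^ k : ℕ) : ℝ) * (H : ℝ) ^ 2 / L ^ (2 * V + 2) < Q k s c) with hBd
  have hcard : ∀ k : ℕ, ∀ s : ℤ, (s = 1 ∨ s = -1) → ((Bd k s).card : ℝ) ≤ X / L ^ (U + 3) := by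
    intro k s hs
    by_cases hk : (X : ℝ) ^ (θ + ε) ≤ ((2 ^ k : ℕ) : ℝ) ∧ (((2 ^ k : ℕ) : ℝ)) ^ (1 + 2 * θ) ≤ (X : ℝ) ^ (1 - ε)
    · have h2 := hmom z hz1 hz2 (2 ^ k) hk.1 hk.2 H (by
        refine le_trans (le_of_eq ?_) hH1
        congr 1) hH2 s hs
      have hT0 : 0 < ((2 ^ k : ℕ) : ℝ) * (H : ℝ) ^ 2 / L ^ (2 * V + 2) := by positivity
      have h3 : ((Bd k s).card : ℝ) * (((2 ^ k : ℕ) : ℝ) * (H : ℝ) ^ 2 / L ^ (2 * V + 2)) ≤
          X * ((2 ^ k : ℕ) : ℝ) * (H : ℝ) ^ 2 / L ^ (U + 2 * V + 5) := by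
        calc ((Bd k s).card : ℝ) * (((2 ^ k : ℕ) : ℝ) * (H : ℝ) ^ 2 / L ^ (2 * V + 2)) =
              ∑ c ∈ Bd k s, (((2 ^ k : ℕ) : ℝ) * (H : ℝ) ^ 2 / L ^ (2 * V + 2)) := by rw [sum_const, nsmul_eq_mul]
          _ ≤ ∑ c ∈ Bd k s, Q k s c := by
              refine sum_le_sum fun c hc => ?_
              rw [hBd, mem_filter] at hc
              exact hc.2.2.le
          _ ≤ ∑ c ∈ Icc (-(X : ℤ)) X, Q k s c :=
              sum_le_sum_of_subset_of_nonneg (filter_subset _ _) fun _ _ _ => sum_nonneg fun _ _ => sq_nonneg _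
          _ ≤ _ := h2
      rw [← le_div_iff₀ hT0] at h3
      refine h3.trans (le_of_eq ?_)
      have e : L ^ (U + 2 * V + 5) = L ^ (U + 3) * L ^ (2 * V + 2) := by rw [← pow_add]; congr 1; ring
      rw [e]
      have hk0 : (0 : ℝ) < ((2 ^ k : ℕ) : ℝ) := by positivity
      field_simp
    · have h2 : Bd k s = ∅ := by
        rw [hBd]
        simp only
        rw [filter_eq_empty_iff]
        intro c _ hc
        exact hk hc.1
      rw [h2, card_empty, Nat.cast_zero]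
      positivity
  refine ⟨(range J).biUnion (fun k => Bd k 1 ∪ (Bd k (-1)).image (fun c => -1 * c)), ?_, ?_⟩
  · calc ((((range J).biUnion (fun k => Bd k 1 ∪ (Bd k (-1)).image (fun c => -1 * c))).card : ℕ) : ℝ) ≤
          ∑ k ∈ range J, ((Bd k 1 ∪ (Bd k (-1)).image (fun c => -1 * c)).card : ℝ) := by
          exact_mod_cast card_biUnion_le
      _ ≤ ∑ k ∈ range J, (2 * (X / L ^ (U + 3))) := by
          refine sum_le_sum fun k _ => ?_
          have e1 := card_union_le (Bd k 1) ((Bd k (-1)).image (fun c => -1 * c))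
          have e2 := card_image_le (s := Bd k (-1)) (f := fun c : ℤ => -1 * c)
          have e3 : ((Bd k 1 ∪ (Bd k (-1)).image (fun c => -1 * c)).card : ℝ) ≤ (Bd k 1).card + (Bd k (-1)).card := by
            exact_mod_cast e1.trans (Nat.add_le_add_left e2 _)
          have e4 := hcard k 1 (Or.inl rfl)
          have e5 := hcard k (-1) (Or.inr rfl)
          linarith
      _ = J * (2 * (X / L ^ (U + 3))) := by rw [sum_const, card_range, nsmul_eq_mul]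
      _ ≤ (2 * L) * (2 * (X / L ^ (U + 3))) := by gcongr
      _ = X * (4 * L) / L ^ (U + 3) := by ring
      _ ≤ X * (L * L) / L ^ (U + 3) := by
          gcongr
          linarith
      _ = X / L ^ (U + 1) := by
          rw [show U + 3 = (U + 1) + 2 by ring, pow_add L (U + 1) 2]
          field_simp
      _ ≤ X / L ^ U := by
          apply div_le_div_of_nonneg_left hX0.le (hp _)
          exact pow_le_pow_right₀ hL1 (by omega)
  · intro a ha haB N hN1 hN2 s hs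
    have hXθ : 1 ≤ (X : ℝ) ^ (θ + ε) := Real.one_le_rpow hX1 (by positivity)
    have hN0 : (0 : ℝ) < N := by linarith
    have hN1' : 1 ≤ N := by exact_mod_cast (by linarith : (1 : ℝ) ≤ N)
    set k := Nat.log 2 N with hk
    have hk1 : 2 ^ k ≤ N := Nat.pow_log_le_self 2 (by omega)
    have hk2 : N < 2 ^ (k + 1) := Nat.lt_pow_succ_log_self (by norm_num) N
    have hk2' : N < 2 * 2 ^ k := by rw [pow_succ] at hk2; omega
    have hk1r : ((2 ^ k : ℕ) : ℝ) ≤ N := by exact_mod_cast hk1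
    have hk2r : (N : ℝ) ≤ 2 * ((2 ^ k : ℕ) : ℝ) := by exact_mod_cast hk2'.le
    have hblock : ∀ i ∈ range 3, ∑ M ∈ Ico (2 ^ (k + i)) (2 * 2 ^ (k + i)), (Wn (gI z) s H (s * a) ((M : ℕ) : ℤ)) ^ 2 ≤
        ((2 ^ (k + i) : ℕ) : ℝ) * (H : ℝ) ^ 2 / L ^ (2 * V + 2) := by
      intro i hi
      rw [mem_range] at hi
      have hi4 : (2 : ℕ) ^ i ≤ 4 := by
        calc 2 ^ i ≤ 2 ^ 2 := Nat.pow_le_pow_right (by norm_num) (by omega)
          _ = 4 := by norm_num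
      have e0 : (2 : ℕ) ^ (k + i) = 2 ^ k * 2 ^ i := pow_add 2 k i
      have e1 : 2 ^ (k + i) ≤ 4 * N := by
        rw [e0]
        calc 2 ^ k * 2 ^ i ≤ N * 4 := Nat.mul_le_mul hk1 hi4
          _ = 4 * N := by ring
      have e1r : ((2 ^ (k + i) : ℕ) : ℝ) ≤ 4 * N := by exact_mod_cast e1
      have e2 : 2 ^ k ≤ 2 ^ (k + i) := Nat.pow_le_pow_right (by norm_num) (by omega)
      have e2r : ((2 ^ k : ℕ) : ℝ) ≤ ((2 ^ (k + i) : ℕ) : ℝ) := by exact_mod_cast e2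
      have c1 : (X : ℝ) ^ (θ + ε) ≤ ((2 ^ (k + i) : ℕ) : ℝ) := by linarith
      have c2 : (((2 ^ (k + i) : ℕ) : ℝ)) ^ (1 + 2 * θ) ≤ (X : ℝ) ^ (1 - ε) :=
        (Real.rpow_le_rpow (by positivity) e1r (by positivity)).trans hN2
      have c3 : ((2 ^ (k + i) : ℕ) : ℝ) ≤ X := by
        have d1 : (1 : ℝ) ≤ ((2 ^ (k + i) : ℕ) : ℝ) := hXθ.trans c1
        calc ((2 ^ (k + i) : ℕ) : ℝ) = ((2 ^ (k + i) : ℕ) : ℝ) ^ (1 : ℝ) := (Real.rpow_one _).symm
          _ ≤ ((2 ^ (k + i) : ℕ) : ℝ) ^ (1 + 2 * θ) := Real.rpow_le_rpow_of_exponent_le d1 (by linarith)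
          _ ≤ (X : ℝ) ^ (1 - ε) := c2
          _ ≤ (X : ℝ) ^ (1 : ℝ) := Real.rpow_le_rpow_of_exponent_le hX1 (by linarith)
          _ = X := Real.rpow_one _
      have c4 : 2 ^ (k + i) ≤ X := by exact_mod_cast c3
      have c5 : k + i < J := by
        have := Nat.le_log_of_pow_le (by norm_num : 1 < 2) c4
        omega
      have haI := mem_Icc.1 ha
      by_contra hcon
      push Not at hcon
      apply haB
      rw [mem_biUnion]
      refine ⟨k + i, mem_range.2 c5, ?_⟩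
      rw [mem_union]
      rcases hs with rfl | rfl
      · left
        rw [one_mul] at hcon
        rw [hBd, mem_filter]
        exact ⟨ha, ⟨c1, c2⟩, hcon⟩
      · right
        rw [mem_image]
        refine ⟨-1 * a, ?_, by ring⟩
        rw [hBd, mem_filter, mem_Icc]
        refine ⟨by omega, ⟨c1, c2⟩, hcon⟩
    have hsq : ∑ M ∈ Ico N (3 * N), (Wn (gI z) s H (s * a) ((M : ℕ) : ℤ)) ^ 2 ≤ 7 * N * (H : ℝ) ^ 2 / L ^ (2 * V + 2) := by
      calc ∑ M ∈ Ico N (3 * N), (Wn (gI z) s H (s * a) ((M : ℕ) : ℤ)) ^ 2 ≤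
            ∑ M ∈ Ico (2 ^ k) (2 ^ (k + 3)), (Wn (gI z) s H (s * a) ((M : ℕ) : ℤ)) ^ 2 := by
            apply sum_le_sum_of_subset_of_nonneg
            · intro M hM
              rw [mem_Ico] at hM ⊢
              have : 2 ^ (k + 3) = 8 * 2 ^ k := by rw [pow_add]; ring
              omega
            · intro _ _ _
              exact sq_nonneg _
        _ = ∑ i ∈ range 3, ∑ M ∈ Ico (2 ^ (k + i)) (2 * 2 ^ (k + i)), (Wn (gI z) s H (s * a) ((M : ℕ) : ℤ)) ^ 2 := by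
            have e : ∀ i, 2 * 2 ^ (k + i) = 2 ^ (k + (i + 1)) := fun i => by rw [← pow_succ', add_assoc]
            simp only [e]
            have g := sum_Ico_consecutive (fun M : ℕ => (Wn (gI z) s H (s * a) ((M : ℕ) : ℤ)) ^ 2)
              (Nat.pow_le_pow_right (show 0 < 2 by norm_num) (show k ≤ k + 1 by omega))
              (Nat.pow_le_pow_right (show 0 < 2 by norm_num) (show k + 1 ≤ k + 2 by omega))
            have g2 := sum_Ico_consecutive (fun M : ℕ => (Wn (gI z) s H (s * a) ((M : ℕ) : ℤ)) ^ 2)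
              (Nat.pow_le_pow_right (show 0 < 2 by norm_num) (show k ≤ k + 2 by omega))
              (Nat.pow_le_pow_right (show 0 < 2 by norm_num) (show k + 2 ≤ k + 3 by omega))
            rw [sum_range_succ, sum_range_succ, sum_range_succ, sum_range_zero, zero_add, ← g2, ← g]
            rfl
        _ ≤ ∑ i ∈ range 3, (((2 ^ (k + i) : ℕ) : ℝ) * (H : ℝ) ^ 2 / L ^ (2 * V + 2)) := sum_le_sum hblock
        _ = 7 * ((2 ^ k : ℕ) : ℝ) * (H : ℝ) ^ 2 / L ^ (2 * V + 2) := by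
            rw [sum_range_succ, sum_range_succ, sum_range_succ, sum_range_zero]
            push_cast
            ring
        _ ≤ _ := by gcongr
    refine cauchy1 _ _ _ _ (by positivity) hsq ?_
    rw [Nat.card_Ico]
    have e1 : ((3 * N - N : ℕ) : ℝ) = 2 * N := by
      have : 3 * N - N = 2 * N := by omega
      rw [this]
      push_cast
      ring
    rw [e1]
    calc 2 * (N : ℝ) * (7 * N * (H : ℝ) ^ 2 / L ^ (2 * V + 2)) = ((N : ℝ) * H) ^ 2 * 14 / L ^ (2 * V + 2) := by ring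
      _ ≤ ((N : ℝ) * H) ^ 2 * L ^ 2 / L ^ (2 * V + 2) := by
          gcongr
          nlinarith
      _ = (N * H / L ^ V) ^ 2 := by
          rw [div_pow, ← pow_mul, pow_add L (2 * V) 2]
          field_simp
          ring

end Pool.Agent.H43.SW
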