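import Pool.Agent.H43.SW.Pair
import Pool.Agent.H43.SL.Mom2

/-!
Blocks: the difference function on intervals.
-/

set_option autoImplicit false

namespace Pool.Agent.H43.SW

open Finset
open Pool.Agent.H43.SL
open Pool.Agent.helper24_UT (NN)
open Pool.Agent.W81.R1 (gI)

/-- `gI z` on `(lo, hi]` -/
noncomputable def Dc (z lo hi : ℕ) (m : ℤ) : ℝ := if (lo : ℤ) < m ∧ m ≤ hi then gI z m else 0

lemma Dc_supp (z lo hi : ℕ) : ∀ m, Dc z lo hi m ≠ 0 → -(hi : ℤ) ≤ m ∧ m ≤ hi := by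
  intro m hm
  unfold Dc at hm
  by_contra hcon
  rw [if_neg (by omega)] at hm
  exact hm rfl

lemma Dc_fs (z lo hi : ℕ) : Fs (Dc z lo hi) := fs_of_bound (Dc_supp z lo hi)

lemma Dc_abs {z lo hi : ℕ} {P : ℝ} (hP : 0 ≤ P) (hb : ∀ m : ℤ, 1 ≤ m → m ≤ hi → |gI z m| ≤ P) (m : ℤ) :
    |Dc z lo hi m| ≤ P := by
  unfold Dc
  split_ifs with h
  · exact hb m (by omega) h.2
  · rw [abs_zero]; exact hP

lemma E2_Dc {z lo hi : ℕ} {P : ℝ} (hP : 0 ≤ P) (hb : ∀ m : ℤ, 1 ≤ m → m ≤ hi → |gI z m| ≤ P) :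
    E2 (Dc z lo hi) ≤ ((hi - lo : ℕ) : ℝ) * P ^ 2 := by
  unfold E2
  rw [tsum_eq_sum (s := Ioc (lo : ℤ) hi)]
  · calc ∑ m ∈ Ioc (lo : ℤ) hi, Dc z lo hi m ^ 2 ≤ ∑ m ∈ Ioc (lo : ℤ) hi, P ^ 2 := by
          refine sum_le_sum fun m _ => ?_
          rw [← sq_abs]
          exact pow_le_pow_left₀ (abs_nonneg _) (Dc_abs hP hb m) 2
      _ = _ := by
          rw [sum_const, Int.card_Ioc, nsmul_eq_mul]
          congr 2
          omega
  · intro m hm
    rw [mem_Ioc] at hm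
    unfold Dc
    rw [if_neg hm]
    norm_num

lemma NN_nonneg (f : ℤ → ℝ) (u : ℤ) (W q : ℕ) : 0 ≤ NN f u W q := by unfold NN; positivity

/-- all windows -/
lemma windows_c {z lo hi : ℕ} {P : ℝ} (hP : 0 ≤ P) (hb : ∀ m : ℤ, 1 ≤ m → m ≤ hi → |gI z m| ≤ P) (W q : ℕ)
    (hq : 1 ≤ q) (hW : 1 ≤ W) :
    ∑' u : ℤ, NN (Dc z lo hi) u W q ≤ ∑ u ∈ Ico lo hi, NN (gI z) (u : ℤ) W q + 2 * W * (W * P) ^ 2 := by
  rw [tsum_NN_eq (Dc_supp z lo hi)]
  have htriv : ∀ u : ℤ, NN (Dc z lo hi) u W q ≤ (W * P) ^ 2 := by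
    intro u
    refine (NN_triv _ u W q hq).trans ?_
    apply pow_le_pow_left₀ (sum_nonneg fun _ _ => abs_nonneg _)
    calc ∑ m ∈ Ioc u (u + W), |Dc z lo hi m| ≤ ∑ m ∈ Ioc u (u + W), P := sum_le_sum fun m _ => Dc_abs hP hb m
      _ = W * P := by rw [sum_const, nsmul_eq_mul, card_window]
  set S := Ico ((lo : ℤ) - W) lo ∪ Ioc ((hi : ℤ) - W) hi with hS
  have hScard : (S.card : ℝ) ≤ 2 * W := by
    have h1 := card_union_le (Ico ((lo : ℤ) - W) lo) (Ioc ((hi : ℤ) - W) hi)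
    rw [Int.card_Ico, Int.card_Ioc] at h1
    have h2 : S.card ≤ 2 * W := by rw [hS]; omega
    exact_mod_cast h2
  have hpt : ∀ u ∈ Icc (-(hi : ℤ) - W) hi, NN (Dc z lo hi) u W q ≤
      (if u ∈ S then (W * P) ^ 2 else 0) + (if u ∈ Ico (lo : ℤ) hi then NN (gI z) u W q else 0) := by
    intro u hu
    rw [mem_Icc] at hu
    have hb' : 0 ≤ (if u ∈ Ico (lo : ℤ) hi then NN (gI z) u W q else 0) := by
      split_ifs
      · exact NN_nonneg _ _ _ _
      · exact le_rfl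
    by_cases h1 : u ∈ S
    · rw [if_pos h1]
      have := htriv u
      linarith
    · rw [if_neg h1, zero_add]
      rw [hS, mem_union, mem_Ico, mem_Ioc, not_or] at h1
      by_cases h2 : u < lo
      · have h3 : u < (lo : ℤ) - W := by omega
        have h4 : NN (Dc z lo hi) u W q = 0 := by
          unfold NN
          refine sum_eq_zero fun r _ => ?_
          rw [sum_eq_zero, zero_pow (by norm_num)]
          intro m hm
          rw [mem_filter, mem_Ioc] at hm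
          unfold Dc
          rw [if_neg (by omega)]
        rw [h4]
        exact hb'
      · by_cases h5 : u < hi
        · rw [if_pos (by rw [mem_Ico]; omega)]
          apply le_of_eq
          unfold NN
          refine sum_congr rfl fun r _ => ?_
          congr 1
          refine sum_congr rfl fun m hm => ?_
          rw [mem_filter, mem_Ioc] at hm
          unfold Dc
          rw [if_pos (by omega)]
        · have h4 : NN (Dc z lo hi) u W q = 0 := by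
            unfold NN
            refine sum_eq_zero fun r _ => ?_
            rw [sum_eq_zero, zero_pow (by norm_num)]
            intro m hm
            rw [mem_filter, mem_Ioc] at hm
            unfold Dc
            rw [if_neg (by omega)]
          rw [h4]
          exact hb'
  refine (sum_le_sum hpt).trans ?_
  rw [sum_add_distrib, add_comm]
  refine add_le_add ?_ ?_
  · rw [← sum_filter]
    have h1 : ∑ u ∈ Ico lo hi, NN (gI z) (u : ℤ) W q = ∑ u ∈ (Ico lo hi).image (fun u : ℕ => (u : ℤ)), NN (gI z) u W q := by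
      rw [sum_image (fun a _ b _ hab => by exact_mod_cast hab)]
    rw [h1]
    apply sum_le_sum_of_subset_of_nonneg
    · intro u hu
      rw [mem_filter, mem_Icc, mem_Ico] at hu
      rw [mem_image]
      exact ⟨u.toNat, by rw [mem_Ico]; omega, by omega⟩
    · intro u _ _
      exact NN_nonneg _ _ _ _
  · rw [← sum_filter, sum_const, nsmul_eq_mul]
    have h1 : (((Icc (-(hi : ℤ) - W) hi).filter (fun u => u ∈ S)).card : ℝ) ≤ 2 * W := by
      refine le_trans ?_ hScard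
      exact_mod_cast card_le_card (fun u hu => (mem_filter.1 hu).2)
    have h2 : 0 ≤ (W * P) ^ 2 := by positivity
    nlinarith

/-- sums over overlapping intervals -/
lemma overlap (n m0 Z : ℕ) (lo hi : ℕ → ℕ) (g : ℕ → ℝ) (hg : ∀ u, 0 ≤ g u) (hZ : ∀ i < n, hi i ≤ Z)
    (hm : ∀ u, ((range n).filter (fun i => lo i ≤ u ∧ u < hi i)).card ≤ m0) :
    ∑ i ∈ range n, ∑ u ∈ Ico (lo i) (hi i), g u ≤ m0 * ∑ u ∈ range Z, g u := by
  have h1 : ∀ i ∈ range n, ∑ u ∈ Ico (lo i) (hi i), g u = ∑ u ∈ range Z, if lo i ≤ u ∧ u < hi i then g u else 0 := by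
    intro i hi'
    rw [← sum_filter]
    apply sum_congr _ fun _ _ => rfl
    ext u
    have := hZ i (mem_range.1 hi')
    simp only [mem_Ico, mem_filter, mem_range]
    omega
  rw [sum_congr rfl h1, sum_comm, mul_sum]
  refine sum_le_sum fun u _ => ?_
  rw [← sum_filter, sum_const, nsmul_eq_mul]
  have h2 : (((range n).filter (fun i => lo i ≤ u ∧ u < hi i)).card : ℝ) ≤ m0 := by exact_mod_cast hm u
  exact mul_le_mul_of_nonneg_right h2 (hg u)

/-- progressions in all blocks -/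
theorem blk_S {z : ℕ} {P : ℝ} (hP : 0 ≤ P) (n m0 Z Λ : ℕ) (lo hi : ℕ → ℕ)
    (hb : ∀ m : ℤ, 1 ≤ m → m ≤ Z → |gI z m| ≤ P) (hZ : ∀ i < n, hi i ≤ Z) (hΛ : ∀ i < n, hi i - lo i ≤ Λ)
    (hm : ∀ u, ((range n).filter (fun i => lo i ≤ u ∧ u < hi i)).card ≤ m0) (q w R : ℕ) (hq : 1 ≤ q) (hw : 1 ≤ w) :
    ∑ i ∈ range n, E2 (Sq (Dc z (lo i) (hi i)) q R) ≤
      16 * (R : ℝ) ^ 2 / ((q * w : ℕ) : ℝ) ^ 2 * (q * (m0 * ∑ u ∈ range Z, NN (gI z) (u : ℤ) (q * w) q +
        n * (2 * ((q * w : ℕ) : ℝ) * (((q * w : ℕ) : ℝ) * P) ^ 2))) + 8 * (w : ℝ) ^ 2 * (n * (Λ * P ^ 2)) := by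
  set W := q * w with hW
  have hW1 : 1 ≤ W := Nat.mul_pos hq hw
  have hqW : q ≤ W := Nat.le_mul_of_pos_right _ hw
  have hq0 : (0 : ℝ) < q := by exact_mod_cast hq
  have hWq : (W : ℝ) / q = w := by
    rw [hW]; push_cast; field_simp
  have hbi : ∀ i < n, ∀ m : ℤ, 1 ≤ m → m ≤ hi i → |gI z m| ≤ P := fun i hi' m h1 h2 =>
    hb m h1 (h2.trans (by exact_mod_cast hZ i hi'))
  have h1 : ∀ i ∈ range n, E2 (Sq (Dc z (lo i) (hi i)) q R) ≤
      16 * (R : ℝ) ^ 2 / (W : ℝ) ^ 2 * (q * (∑ u ∈ Ico (lo i) (hi i), NN (gI z) (u : ℤ) W q + 2 * W * (W * P) ^ 2)) +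
        8 * (w : ℝ) ^ 2 * (Λ * P ^ 2) := by
    intro i hi'
    rw [mem_range] at hi'
    refine (prog_le (Dc_fs z (lo i) (hi i)) W q R hq hqW).trans (add_le_add ?_ ?_)
    · have h2 := windows_c hP (hbi i hi') W q hq hW1 (lo := lo i)
      gcongr
    · rw [hWq]
      have h2 : E2 (Dc z (lo i) (hi i)) ≤ Λ * P ^ 2 := by
        refine (E2_Dc hP (hbi i hi')).trans ?_
        have : ((hi i - lo i : ℕ) : ℝ) ≤ Λ := by exact_mod_cast hΛ i hi'
        gcongr
      gcongr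
  refine (sum_le_sum h1).trans ?_
  rw [sum_add_distrib, ← mul_sum, ← mul_sum, sum_add_distrib, sum_const, sum_const, card_range, nsmul_eq_mul,
    nsmul_eq_mul]
  refine add_le_add ?_ (le_of_eq (by ring))
  have h3 := overlap n m0 Z lo hi (fun u => NN (gI z) (u : ℤ) W q) (fun u => NN_nonneg _ _ _ _) hZ hm
  gcongr

end Pool.Agent.H43.SW
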