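import Pool.Agent.H43.SW.Avg

/-!
The weights in short windows.
-/

set_option autoImplicit false

namespace Pool.Agent.H43.SW

open Finset

/-- `log` on the prime values -/
noncomputable def th (a : ℤ) (n : ℤ) : ℝ := if (n ^ 2 + a).natAbs.Prime then Real.log |((n ^ 2 + a : ℤ) : ℝ)| else 0

/-- number of prime values in the window `(M, M + H]` -/
noncomputable def PW (a : ℤ) (M H : ℕ) : ℝ :=
  (((Ioc M (M + H)).filter (fun n : ℕ => Nat.Prime (Int.natAbs ((n : ℤ) ^ 2 + a)))).card : ℝ)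

/-- the sum of the `1 / log |n² + a|` over the window -/
noncomputable def LW (a : ℤ) (M H : ℕ) : ℝ :=
  ∑ n ∈ (Ioc M (M + H)).filter (fun n : ℕ => 2 ≤ |(n : ℤ) ^ 2 + a|), 1 / Real.log |(((n : ℤ) ^ 2 + a : ℤ) : ℝ)|

lemma Sx_Ioc (x : ℤ → ℝ) (H M : ℕ) : Sx x H M = ∑ n ∈ Ioc M (M + H), x n := by
  unfold Sx
  refine sum_nbij' (fun j : ℕ => M + j) (fun n : ℕ => n - M) ?_ ?_ ?_ ?_ ?_
  · intro j hj; rw [mem_Icc] at hj; rw [mem_Ioc]; omega
  · intro n hn; rw [mem_Ioc] at hn; rw [mem_Icc]; omega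
  · intro j _; omega
  · intro n hn; rw [mem_Ioc] at hn; omega
  · intro j _; push_cast; rfl

/-- from weighted sums to the number of prime values -/
theorem wconv (a : ℤ) (N M H : ℕ) (h δ η Δ : ℝ) (hH : 1 ≤ H) (hNM : M < 2 * N) (hHN : H ≤ N)
    (hh : 0 ≤ h) (hδ : 0 ≤ δ) (hδ1 : δ ≤ 1 / 4) (hΔ : 3 ≤ Δ)
    (hf : ∀ n ∈ Ioc M (M + H), Δ ≤ |(((n : ℤ) ^ 2 + a : ℤ) : ℝ)|) (hd : (H : ℝ) * (6 * N) ≤ δ * Δ)
    (he : |Sx (fun n => th a n - h) H M| ≤ η * (h * H)) :
    |PW a M H - h * LW a M H| ≤ 3 * (η + δ) * (h * LW a M H) := by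
  set ab : ℕ → ℝ := fun n => |(((n : ℤ) ^ 2 + a : ℤ) : ℝ)| with hab
  set ℓ : ℕ → ℝ := fun n => Real.log (ab n) with hℓ
  set I := Ioc M (M + H) with hI
  have hIcard : (I.card : ℝ) = H := by
    rw [hI, Nat.card_Ioc]
    congr 1
    omega
  have hH0 : (0 : ℝ) < H := by exact_mod_cast hH
  have hΔ0 : (0 : ℝ) < Δ := by linarith
  have habpos : ∀ n ∈ I, 0 < ab n := fun n hn => lt_of_lt_of_le hΔ0 (hf n hn)
  have hlogΔ : 1 ≤ Real.log Δ := by
    have h1 : Real.exp 1 ≤ Δ := by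
      have := Real.exp_one_lt_d9
      linarith
    have := Real.log_le_log (Real.exp_pos 1) h1
    rwa [Real.log_exp] at this
  have hℓ1 : ∀ n ∈ I, 1 ≤ ℓ n := fun n hn => hlogΔ.trans (Real.log_le_log hΔ0 (hf n hn))
  -- closeness of the values
  have hclose : ∀ n ∈ I, ∀ m ∈ I, ab m - ab n ≤ δ * Δ := by
    intro n hn m hm
    rw [hI, mem_Ioc] at hn hm
    have h1 : ab m - ab n ≤ |(((m : ℤ) ^ 2 + a : ℤ) : ℝ) - (((n : ℤ) ^ 2 + a : ℤ) : ℝ)| := abs_sub_abs_le_abs_sub _ _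
    refine h1.trans (le_trans ?_ hd)
    have h2 : (((m : ℤ) ^ 2 + a : ℤ) : ℝ) - (((n : ℤ) ^ 2 + a : ℤ) : ℝ) = ((m : ℝ) - n) * (m + n) := by
      push_cast; ring
    rw [h2, abs_mul]
    have h3 : |(m : ℝ) - n| ≤ H := by
      rw [abs_le]
      have e1 : (m : ℝ) ≤ M + H := by exact_mod_cast hm.2
      have e2 : (n : ℝ) ≤ M + H := by exact_mod_cast hn.2
      have e3 : (M : ℝ) ≤ m := by exact_mod_cast hm.1.le
      have e4 : (M : ℝ) ≤ n := by exact_mod_cast hn.1.le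
      constructor <;> linarith
    have h4 : |(m : ℝ) + n| ≤ 6 * N := by
      rw [abs_of_nonneg (by positivity)]
      have : m + n ≤ 6 * N := by omega
      exact_mod_cast this
    gcongr
  have hlclose : ∀ n ∈ I, ∀ m ∈ I, ℓ m - ℓ n ≤ δ := by
    intro n hn m hm
    have h1 := habpos n hn
    have h2 := habpos m hm
    simp only [hℓ]
    rw [← Real.log_div h2.ne' h1.ne']
    refine (Real.log_le_sub_one_of_pos (by positivity)).trans ?_
    rw [sub_le_iff_le_add, div_le_iff₀ h1]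
    have h3 := hclose n hn m hm
    have h4 : δ * Δ ≤ δ * ab n := mul_le_mul_of_nonneg_left (hf n hn) hδ
    linarith
  set m0 := M + 1 with hm0
  have hm0I : m0 ∈ I := by rw [hI, mem_Ioc]; omega
  set w0 := 1 / ℓ m0 with hw0
  have hℓ0 := hℓ1 m0 hm0I
  have hw0p : 0 < w0 := by rw [hw0]; positivity
  have hw : ∀ n ∈ I, |1 / ℓ n - w0| ≤ δ * w0 := by
    intro n hn
    have h1 := hℓ1 n hn
    have h2 := hlclose n hn m0 hm0I
    have h3 := hlclose m0 hm0I n hn
    rw [hw0]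
    have e : 1 / ℓ n - 1 / ℓ m0 = (ℓ m0 - ℓ n) / ℓ n * (1 / ℓ m0) := by
      field_simp
    rw [e, abs_mul, abs_of_pos (show 0 < 1 / ℓ m0 by positivity), abs_div, abs_of_pos (show 0 < ℓ n by linarith)]
    have h4 : |ℓ m0 - ℓ n| ≤ δ := by rw [abs_le]; constructor <;> linarith
    have h5 : |ℓ m0 - ℓ n| / ℓ n ≤ δ := by
      rw [div_le_iff₀ (by linarith)]
      nlinarith
    gcongr
  -- the number of the primes
  have hPW : PW a M H = ∑ n ∈ I, th a n * (1 / ℓ n) := by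
    unfold PW
    rw [card_filter]
    push_cast
    refine sum_congr rfl fun n hn => ?_
    have h1 := hℓ1 n hn
    unfold th
    split_ifs with hp
    · have : Real.log |((((n : ℤ) ^ 2 + a : ℤ)) : ℝ)| = ℓ n := rfl
      rw [this]
      field_simp
    · rw [zero_mul]
  have hLW : LW a M H = ∑ n ∈ I, 1 / ℓ n := by
    unfold LW
    rw [filter_true_of_mem]
    intro n hn
    have h1 := hf n hn
    have h2 : (2 : ℝ) ≤ |(((n : ℤ) ^ 2 + a : ℤ) : ℝ)| := by linarith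
    exact_mod_cast h2
  have hSe : Sx (fun n => th a n - h) H M = ∑ n ∈ I, (th a n - h) := Sx_Ioc _ H M
  rw [hSe] at he
  have hth0 : ∀ n ∈ I, 0 ≤ th a n := by
    intro n hn
    unfold th
    split_ifs
    · exact le_trans zero_le_one (hℓ1 n hn)
    · exact le_rfl
  have habs : ∑ n ∈ I, |th a n - h| ≤ |∑ n ∈ I, (th a n - h)| + 2 * (h * H) := by
    calc ∑ n ∈ I, |th a n - h| ≤ ∑ n ∈ I, ((th a n - h) + 2 * h) := by
          refine sum_le_sum fun n hn => ?_
          have := hth0 n hn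
          rw [abs_le]
          constructor <;> linarith
      _ = ∑ n ∈ I, (th a n - h) + 2 * (h * H) := by
          rw [sum_add_distrib, sum_const, nsmul_eq_mul, hIcard]
          ring
      _ ≤ _ := by
          gcongr
          exact le_abs_self _
  have hLWlow : w0 * H * (3 / 4) ≤ LW a M H := by
    rw [hLW]
    calc w0 * H * (3 / 4) = ∑ n ∈ I, w0 * (3 / 4) := by
          rw [sum_const, nsmul_eq_mul, hIcard]; ring
      _ ≤ ∑ n ∈ I, 1 / ℓ n := by
          refine sum_le_sum fun n hn => ?_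
          have h1 := (abs_le.1 (hw n hn)).1
          have h2 : δ * w0 ≤ 1 / 4 * w0 := by gcongr
          linarith
  have hmain : PW a M H - h * LW a M H = w0 * ∑ n ∈ I, (th a n - h) + ∑ n ∈ I, (th a n - h) * (1 / ℓ n - w0) := by
    rw [hPW, hLW, mul_sum, mul_sum, ← sum_sub_distrib, ← sum_add_distrib]
    refine sum_congr rfl fun n _ => ?_
    ring
  have hη : 0 ≤ η * (h * H) := (abs_nonneg _).trans he
  rw [hmain]
  calc |w0 * ∑ n ∈ I, (th a n - h) + ∑ n ∈ I, (th a n - h) * (1 / ℓ n - w0)| ≤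
        w0 * |∑ n ∈ I, (th a n - h)| + ∑ n ∈ I, |th a n - h| * (δ * w0) := by
        refine (abs_add_le _ _).trans (add_le_add (le_of_eq ?_) ?_)
        · rw [abs_mul, abs_of_pos hw0p]
        · refine (abs_sum_le_sum_abs _ _).trans (sum_le_sum fun n hn => ?_)
          rw [abs_mul]
          exact mul_le_mul_of_nonneg_left (hw n hn) (abs_nonneg _)
    _ = w0 * |∑ n ∈ I, (th a n - h)| + δ * w0 * ∑ n ∈ I, |th a n - h| := by
        rw [← sum_mul]; ring
    _ ≤ w0 * |∑ n ∈ I, (th a n - h)| + δ * w0 * (|∑ n ∈ I, (th a n - h)| + 2 * (h * H)) := by gcongr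
    _ = w0 * ((1 + δ) * |∑ n ∈ I, (th a n - h)| + 2 * δ * (h * H)) := by ring
    _ ≤ w0 * ((1 + 1) * (η * (h * H)) + 2 * δ * (h * H)) := by
        gcongr
        linarith
    _ = 2 * (η * (h * H) + δ * (h * H)) * w0 := by ring
    _ ≤ 3 * (η + δ) * (h * (w0 * H * (3 / 4))) := by
        have h1 : 0 ≤ δ * (h * H) := by positivity
        have e : 3 * (η + δ) * (h * (w0 * H * (3 / 4))) = (9 / 4) * (η * (h * H) + δ * (h * H)) * w0 := by ring
        rw [e]
        have h2 : 0 ≤ (η * (h * H) + δ * (h * H)) * w0 := by positivity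
        nlinarith
    _ ≤ 3 * (η + δ) * (h * LW a M H) := by
        rcases hh.eq_or_lt with h0 | h0
        · rw [← h0]; simp
        · have hη0 : 0 ≤ η := by
            by_contra hcon
            push Not at hcon
            have : η * (h * H) < 0 := mul_neg_of_neg_of_pos hcon (by positivity)
            linarith
          gcongr

/-- windows with a small value -/
theorem dbad (a : ℤ) (N H : ℕ) (Δ : ℝ) (hN : 1 ≤ N) (hΔ : 0 ≤ Δ) :
    (((Ico N (2 * N)).filter (fun M => ¬ ∀ n ∈ Ioc M (M + H), Δ ≤ |(((n : ℤ) ^ 2 + a : ℤ) : ℝ)|)).card : ℝ) ≤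
      Δ / N + H + 1 := by
  set T := (Ico N (2 * N)).filter (fun M => ¬ ∀ n ∈ Ioc M (M + H), Δ ≤ |(((n : ℤ) ^ 2 + a : ℤ) : ℝ)|) with hT
  have hN0 : (0 : ℝ) < N := by exact_mod_cast hN
  rcases T.eq_empty_or_nonempty with h0 | h0
  · rw [h0, card_empty, Nat.cast_zero]
    positivity
  have hmin := T.min'_mem h0
  have hmax := T.max'_mem h0
  set M0 := T.min' h0
  set M1 := T.max' h0
  have hsub : T ⊆ Icc M0 M1 := fun M hM => mem_Icc.2 ⟨T.min'_le M hM, T.le_max' M hM⟩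
  have hcard : (T.card : ℝ) ≤ (M1 : ℝ) + 1 - M0 := by
    have h1 := card_le_card hsub
    rw [Nat.card_Icc] at h1
    have h2 : M0 ≤ M1 := T.min'_le _ hmax
    have h3 : T.card + M0 ≤ M1 + 1 := by omega
    have h4 : (T.card : ℝ) + M0 ≤ M1 + 1 := by exact_mod_cast h3
    linarith
  have hdist : (M1 : ℝ) - M0 ≤ Δ / N + H := by
    rw [hT, mem_filter, mem_Ico] at hmin hmax
    obtain ⟨⟨a1, a2⟩, a3⟩ := hmin
    obtain ⟨⟨b1, b2⟩, b3⟩ := hmax
    push Not at a3 b3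
    obtain ⟨n0, hn0, hn0'⟩ := a3
    obtain ⟨n1, hn1, hn1'⟩ := b3
    rw [mem_Ioc] at hn0 hn1
    have c1 : (n0 : ℝ) ≤ M0 + H := by exact_mod_cast hn0.2
    have c2 : (M1 : ℝ) ≤ n1 := by exact_mod_cast hn1.1.le
    have c3 : (N : ℝ) ≤ n0 := by exact_mod_cast (by omega : N ≤ n0)
    have c4 : (N : ℝ) ≤ n1 := by exact_mod_cast (by omega : N ≤ n1)
    have c5 : ((n1 : ℝ) - n0) * (n1 + n0) ≤ 2 * Δ := by
      have e : ((n1 : ℝ) - n0) * (n1 + n0) = (((n1 : ℤ) ^ 2 + a : ℤ) : ℝ) - (((n0 : ℤ) ^ 2 + a : ℤ) : ℝ) := by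
        push_cast; ring
      rw [e]
      have d1 := (abs_lt.1 hn0').1
      have d2 := (abs_lt.1 hn1').2
      linarith
    have c6 : (n1 : ℝ) - n0 ≤ Δ / N := by
      rw [le_div_iff₀ hN0]
      by_contra hcon
      push Not at hcon
      have d0 : 0 < (n1 : ℝ) - n0 := by
        by_contra hc
        push Not at hc
        nlinarith
      nlinarith
    linarith
  linarith

end Pool.Agent.H43.SW
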