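import Pool.Agent.H43.SW.Mod
import Pool.Agent.H43.SW.BadG
import Pool.Agent.H43.SW.Wt
import Pool.Agent.H43.SL.Chn
import Pool.Agent.H43.SL.Cst

/-!
The assembly.
-/

set_option autoImplicit false

namespace Pool.Agent.H43.SW

open Finset Filter Polynomial
open Pool.Agent.H43.SL
open Pool.Agent.H442R2.EHI (evt_log_pow evt_log_ge)
open Pool.Agent.H300R2.BH (rho SS)
open Pool.Agent.H373R2.T7 (lamz Vz pz mem_pz Vz_pos Vz_inv_small)
open Pool.Agent.W80.EC (q2)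
open Pool.Agent.W81.R1 (gI PP PP_bounds SS_eq_PP)
open Pool.Agent.W81.R1A (PQ)

lemma th_bound {X : ℕ} (hX : 17 ≤ X) {a : ℤ} (ha : a ∈ Icc (-(X : ℤ)) X) (n : ℕ) (hn : n ≤ 4 * X) :
    0 ≤ th a n ∧ th a n ≤ 3 * Real.log X := by
  have hX0 : (0 : ℝ) < X := by exact_mod_cast (by omega : 0 < X)
  have hL : 0 ≤ Real.log X := Real.log_natCast_nonneg X
  unfold th
  split_ifs with hp
  · have h2 := hp.two_le
    have h3 : (2 : ℝ) ≤ |(((n : ℤ) ^ 2 + a : ℤ) : ℝ)| := by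
      have : (2 : ℤ) ≤ |(n : ℤ) ^ 2 + a| := by
        rw [Int.abs_eq_natAbs]
        exact_mod_cast h2
      exact_mod_cast this
    refine ⟨Real.log_nonneg (by linarith), ?_⟩
    have h4 : |(((n : ℤ) ^ 2 + a : ℤ) : ℝ)| ≤ (X : ℝ) ^ 3 := by
      have h6 : |(n : ℤ) ^ 2 + a| ≤ (X : ℤ) ^ 3 := by
        have h7 : (n : ℤ) ≤ 4 * X := by exact_mod_cast hn
        have h8 : (n : ℤ) ^ 2 ≤ (4 * X : ℤ) ^ 2 := pow_le_pow_left₀ (by positivity) h7 2
        have h9 : (17 : ℤ) ≤ X := by exact_mod_cast hX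
        rw [mem_Icc] at ha
        have h10 : (17 : ℤ) * X ^ 2 ≤ X ^ 3 := by
          have : (X : ℤ) ^ 3 = X * X ^ 2 := by ring
          rw [this]
          exact mul_le_mul_of_nonneg_right h9 (by positivity)
        have h11 : (X : ℤ) ≤ X ^ 2 := by nlinarith
        rw [abs_le]
        constructor <;> nlinarith [sq_nonneg (n : ℤ)]
      exact_mod_cast h6
    have := Real.log_le_log (by linarith) h4
    rw [Real.log_pow] at this
    exact_mod_cast this
  · exact ⟨le_rfl, by positivity⟩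

theorem swf0 (ε : ℝ) (hε : 0 < ε) (hε1 : ε ≤ 1) (U : ℕ) : ∃ B : ℕ, ∀ᶠ X : ℕ in atTop, ∃ Bad : Finset ℤ,
    (Bad.card : ℝ) ≤ X / Real.log X ^ U ∧ ∀ a ∈ Icc (-(X : ℤ)) X, a ∉ Bad → ¬ IsSquare (-a) →
    ∃ h : ℝ, 0 < h ∧ Tendsto (fun N : ℕ => PQ a N) atTop (nhds h) ∧
      ∀ N : ℕ, (X : ℝ) ^ (1 / 4 + ε) ≤ N → (N : ℝ) ≤ (X : ℝ) ^ (2 / 3 - ε) →
      ∀ H : ℕ, Real.log X ^ B ≤ H → (H : ℝ) * Real.log X ^ B ≤ N →
      (((Ico N (2 * N)).filter (fun M => ¬ |PW a M H - h * LW a M H| ≤ h * LW a M H / Real.log X ^ U)).card : ℝ) ≤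
        N / Real.log X ^ U := by
  classical
  obtain ⟨U1, hU1⟩ : ∃ U1, U1 = U + 2 := ⟨_, rfl⟩
  obtain ⟨V1, hV1⟩ : ∃ V1, V1 = 2 * U + 6 := ⟨_, rfl⟩
  obtain ⟨V2, hV2⟩ : ∃ V2, V2 = V1 + 1 := ⟨_, rfl⟩
  obtain ⟨V3, hV3⟩ : ∃ V3, V3 = V2 + 1 := ⟨_, rfl⟩
  obtain ⟨U2, hU2⟩ : ∃ U2, U2 = V3 + 2 := ⟨_, rfl⟩
  obtain ⟨K0, hK0⟩ : ∃ K0, K0 = U1 + 2 * V3 + 10 := ⟨_, rfl⟩
  obtain ⟨B, hB⟩ : ∃ B, B = K0 + V2 + 2 * U + 10 := ⟨_, rfl⟩
  set θ : ℝ := 1 / 4 + ε / 4 with hθ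
  have hθ4 : 1 / 4 < θ := by rw [hθ]; linarith
  have hθ0 : 0 < θ := by linarith
  have hθ1 : θ ≤ 1 := by rw [hθ]; linarith
  obtain ⟨E₀, hbad⟩ := bad_gI hθ0 hθ1 (c_SIg hθ4) U1 V3 (K0 + 1) (ε / 4) (by linarith)
  set E := max (E₀ + 1) (320 * (4 * (U2 + 4) + 1)) + U2 + 10 with hE
  have hE1 : E₀ + 1 ≤ E := by rw [hE]; have := le_max_left (E₀ + 1) (320 * (4 * (U2 + 4) + 1)); omega
  have hE2 : 320 * (4 * (U2 + 4) + 1) ≤ E := by
    rw [hE]; have := le_max_right (E₀ + 1) (320 * (4 * (U2 + 4) + 1)); omega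
  have hE3 : U2 + 10 ≤ E := by rw [hE]; omega
  clear_value E
  obtain ⟨N1, hN1⟩ := Vz_inv_small E
  refine ⟨B, ?_⟩
  filter_upwards [hbad E, cst U2 E hE2 hE3, model_l1 E (V3 + 1) (1 / 4) (by norm_num), eventually_ge_atTop N1,
    evt_log_ge (2 ^ (E + 1)), evt_log_ge (2 ^ (U2 + 1)), evt_log_ge 64, eventually_ge_atTop 17,
    evt_log_pow (2 * K0 + B) (1 / 4) (by norm_num), evt_log_pow 1 (ε / 2) (by linarith),
    evt_log_pow 2 (11 / 12 * ε) (by linarith)]
    with X hbadX hcst hmod hXN1 hLE hLU hL64 hX17 hpow4 hpowε hpowε2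
  set L := Real.log X with hLdef
  have hL0 : 0 < L := by linarith
  have hL1 : 1 ≤ L := by linarith
  have hp : ∀ n : ℕ, 0 < L ^ n := fun n => by positivity
  have hp1 : ∀ n : ℕ, 1 ≤ L ^ n := fun n => one_le_pow₀ hL1
  have hmono : ∀ {i j : ℕ}, i ≤ j → L ^ i ≤ L ^ j := fun h => pow_le_pow_right₀ hL1 h
  have hX4 : 4 ≤ X := by omega
  have hX0 : (0 : ℝ) < X := by exact_mod_cast (by omega : 0 < X)
  have hX1 : (1 : ℝ) ≤ X := by exact_mod_cast (by omega : 1 ≤ X)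
  obtain ⟨hM1, hM2⟩ := HX_log X hX4
  set M := Real.log (HX X) with hM
  have hM0 : 0 < M := by linarith
  set z := ⌊M ^ E⌋₊ with hz
  have hzhi : (z : ℝ) ≤ L ^ E := (Nat.floor_le (by positivity)).trans (pow_le_pow_left₀ hM0.le hM2 _)
  have hzlo : L ^ E₀ ≤ z := by
    have h2 : M ^ E < z + 1 := Nat.lt_floor_add_one _
    have h3 : 2 * L ^ E₀ ≤ M ^ E := by
      calc 2 * L ^ E₀ ≤ (L / 2) ^ E := by
            rw [div_pow, le_div_iff₀ (by positivity)]
            calc 2 * L ^ E₀ * 2 ^ E = 2 ^ (E + 1) * L ^ E₀ := by ring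
              _ ≤ L * L ^ E₀ := by gcongr
              _ = L ^ (E₀ + 1) := by ring
              _ ≤ L ^ E := hmono hE1
        _ ≤ M ^ E := pow_le_pow_left₀ (by positivity) hM1 _
    have := hp1 E₀
    linarith
  have hz1 : 1 ≤ z := by exact_mod_cast (hp1 _).trans hzlo
  have hVz := hN1 X hXN1 z hz1 hzhi
  have hVz0 : 0 ≤ (Vz z)⁻¹ := (inv_pos.2 (Vz_pos z)).le
  -- the basic length
  set H0 := ⌈L ^ K0⌉₊ with hH0
  have hH0ge : L ^ K0 ≤ H0 := Nat.le_ceil _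
  have hH0le : (H0 : ℝ) ≤ 2 * L ^ K0 := by
    have h3 : (H0 : ℝ) < L ^ K0 + 1 := Nat.ceil_lt_add_one (hp _).le
    have := hp1 K0
    linarith
  have hH01 : 1 ≤ H0 := by exact_mod_cast (hp1 _).trans hH0ge
  have hH00 : (0 : ℝ) < H0 := by exact_mod_cast hH01
  obtain ⟨BadG, hBG, hBG2⟩ := hbadX z hzlo hzhi H0 (by rw [← hK0]; exact hH0ge) (by
    calc (H0 : ℝ) ≤ 2 * L ^ K0 := hH0le
      _ ≤ L * L ^ K0 := by gcongr; linarith
      _ = L ^ (K0 + 1) := by ring)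
  obtain ⟨Bad0, hB0, hB02⟩ := hcst
  refine ⟨BadG ∪ Bad0, ?_, ?_⟩
  · have h1 : ((BadG ∪ Bad0).card : ℝ) ≤ BadG.card + Bad0.card := by exact_mod_cast card_union_le _ _
    have h2 : (X : ℝ) / L ^ U2 ≤ X / L ^ U1 := div_le_div_of_nonneg_left hX0.le (hp _) (hmono (by omega))
    calc ((BadG ∪ Bad0).card : ℝ) ≤ X / L ^ U1 + X / L ^ U1 := by linarith
      _ = X * 2 / L ^ U1 := by ring
      _ ≤ X * L / L ^ U1 := by gcongr; linarith
      _ = X / L ^ (U + 1) := by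
          rw [hU1, show U + 2 = (U + 1) + 1 by ring, pow_succ L (U + 1)]
          field_simp
      _ ≤ X / L ^ U := div_le_div_of_nonneg_left hX0.le (hp _) (hmono (by omega))
  intro a ha haB hsq
  rw [mem_union, not_or] at haB
  obtain ⟨haG, ha0⟩ := haB
  obtain ⟨h, hpos, hlim, hlow, hcp, -⟩ := hB02 a ha ha0 hsq
  refine ⟨h, hpos, hlim, fun N hNlo hNhi H hH1 hH2 => ?_⟩
  -- the size of `N`
  have hX14 : (X : ℝ) ^ (1 / 4 : ℝ) ≤ N := (Real.rpow_le_rpow_of_exponent_le hX1 (by linarith)).trans hNlo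
  have hNbig : L ^ (2 * K0 + B) ≤ N := hpow4.trans hX14
  have hN0 : (0 : ℝ) < N := lt_of_lt_of_le (hp _) hNbig
  have hN1' : 1 ≤ N := by exact_mod_cast (hp1 _).trans hNbig
  have hNXr : (N : ℝ) ≤ X := by
    calc (N : ℝ) ≤ (X : ℝ) ^ (2 / 3 - ε) := hNhi
      _ ≤ (X : ℝ) ^ (1 : ℝ) := Real.rpow_le_rpow_of_exponent_le hX1 (by linarith)
      _ = X := Real.rpow_one _
  have hNX : N ≤ X := by exact_mod_cast hNXr
  have hcond1 : 2 * (X : ℝ) ^ (θ + ε / 4) ≤ N := by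
    refine le_trans ?_ hNlo
    calc 2 * (X : ℝ) ^ (θ + ε / 4) ≤ (X : ℝ) ^ (ε / 2) * (X : ℝ) ^ (θ + ε / 4) := by
          gcongr
          rw [pow_one] at hpowε
          linarith
      _ = (X : ℝ) ^ (1 / 4 + ε) := by
          rw [← Real.rpow_add hX0, hθ]
          congr 1
          ring
  have hcond2 : (4 * N : ℝ) ^ (1 + 2 * θ) ≤ (X : ℝ) ^ (1 - ε / 4) := by
    have e0 : 0 ≤ 1 + 2 * θ := by positivity
    calc (4 * N : ℝ) ^ (1 + 2 * θ) ≤ (4 * (X : ℝ) ^ (2 / 3 - ε)) ^ (1 + 2 * θ) :=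
          Real.rpow_le_rpow (by positivity) (by linarith) e0
      _ = 4 ^ (1 + 2 * θ) * (X : ℝ) ^ ((2 / 3 - ε) * (1 + 2 * θ)) := by
          rw [Real.mul_rpow (by norm_num) (by positivity), ← Real.rpow_mul hX0.le]
      _ ≤ 4 ^ (2 : ℝ) * (X : ℝ) ^ (1 - 7 / 6 * ε) := by
          refine mul_le_mul ?_ ?_ (by positivity) (by positivity)
          · apply Real.rpow_le_rpow_of_exponent_le (by norm_num)
            rw [hθ]; linarith
          · apply Real.rpow_le_rpow_of_exponent_le hX1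
            have e : (2 / 3 - ε) * (1 + 2 * θ) = 1 - 7 / 6 * ε - ε ^ 2 / 2 := by rw [hθ]; ring
            rw [e]
            have := sq_nonneg ε
            linarith
      _ ≤ (X : ℝ) ^ (11 / 12 * ε) * (X : ℝ) ^ (1 - 7 / 6 * ε) := by
          gcongr
          refine le_trans ?_ hpowε2
          calc (4 : ℝ) ^ (2 : ℝ) = 16 := by norm_num
            _ ≤ L := by linarith
            _ = L ^ 1 := (pow_one L).symm
            _ ≤ L ^ 2 := hmono (by norm_num)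
      _ = (X : ℝ) ^ (1 - ε / 4) := by
          rw [← Real.rpow_add hX0]
          congr 1
          ring
  have hg1 := hBG2 a ha haG N hcond1 hcond2 1 (Or.inl rfl)
  have hg2 := hBG2 a ha haG N hcond1 hcond2 (-1) (Or.inr rfl)
  have hmd := hmod N hX14 hNX z hz1 hzhi (q2 1 0 a) (rho_two a) H0 (by
    refine le_trans (hmono ?_) hH0ge
    omega)
  -- the constant
  have hMU : (1 : ℝ) ≤ M ^ U2 := one_le_pow₀ (by linarith)
  have hSSL : SS z (q2 1 0 a) ≤ L := by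
    rw [SS_eq_PP]
    have hb := PP_bounds (a := 1) (b := 0) (c := a) z
    calc (Vz z)⁻¹ * PP z (q2 1 0 a) ≤ L * 1 := mul_le_mul hVz hb.2 hb.1 hL0.le
      _ = L := mul_one L
  have hhL : h ≤ 2 * L := by
    have h1 : h / (4 * M ^ U2) ≤ h / 4 := by
      apply div_le_div_of_nonneg_left hpos.le (by norm_num)
      linarith
    have h2 := (abs_le.1 hcp).1
    linarith
  have hSSh : |SS z (q2 1 0 a) - h| ≤ 1 / (2 * L ^ V3) := by
    refine hcp.trans ?_
    have h1 : (L / 2) ^ U2 ≤ M ^ U2 := pow_le_pow_left₀ (by positivity) hM1 _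
    calc h / (4 * M ^ U2) ≤ (2 * L) / (4 * (L / 2) ^ U2) := by gcongr
      _ = (2 ^ U2 * L) / (2 * L ^ U2) := by
          rw [div_pow]
          field_simp
          norm_num
      _ ≤ (L * L) / (2 * L ^ U2) := by
          gcongr
          refine le_trans (pow_le_pow_right₀ (by norm_num) (by omega)) hLU
      _ = 1 / (2 * L ^ V3) := by
          rw [hU2, pow_add]
          field_simp
  -- the bound of the terms
  have hPm : ∀ n : ℕ, n ≤ 4 * X → |th a n - h| ≤ 5 * L := by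
    intro n hn
    obtain ⟨h1, h2⟩ := th_bound hX17 ha n hn
    rw [abs_le]
    constructor <;> linarith
  have hH0N : H0 ≤ N := by
    have : (H0 : ℝ) ≤ N := by
      calc (H0 : ℝ) ≤ 2 * L ^ K0 := hH0le
        _ ≤ L * L ^ K0 := by gcongr; linarith
        _ = L ^ (K0 + 1) := by ring
        _ ≤ L ^ (2 * K0 + B) := hmono (by omega)
        _ ≤ N := hNbig
    exact_mod_cast this
  have hsp := split1 z a hsq h (5 * L) N H0 fun n _ hn => hPm n (by omega)
  have hl1 : ∑ m ∈ Ico N (3 * N), |Sx (fun n => th a n - h) H0 (m : ℤ)| ≤ N * H0 / L ^ V2 := by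
    have t1 : (Vz z)⁻¹ * ∑ m ∈ Ico N (3 * N), |Sx (fun n => rg z (q2 1 0 a) n - PP z (q2 1 0 a)) H0 (m : ℤ)| ≤
        N * H0 / L ^ V3 := by
      calc _ ≤ L * (N * H0 / L ^ (V3 + 1)) :=
            mul_le_mul hVz hmd (sum_nonneg fun _ _ => abs_nonneg _) hL0.le
        _ = N * H0 / L ^ V3 := by
            rw [pow_succ L V3]
            field_simp
    have t2 : 2 * (N : ℝ) * (H0 * |SS z (q2 1 0 a) - h|) ≤ N * H0 / L ^ V3 := by
      calc 2 * (N : ℝ) * (H0 * |SS z (q2 1 0 a) - h|) ≤ 2 * (N : ℝ) * (H0 * (1 / (2 * L ^ V3))) := by gcongr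
        _ = _ := by field_simp
    have t3 : (H0 : ℝ) * (H0 * (5 * L)) ≤ N * H0 / L ^ V3 := by
      rw [le_div_iff₀ (hp _)]
      calc (H0 : ℝ) * (H0 * (5 * L)) * L ^ V3 = H0 * (H0 * 5 * L ^ (V3 + 1)) := by ring
        _ ≤ H0 * (2 * L ^ K0 * 5 * L ^ (V3 + 1)) := by gcongr
        _ = H0 * (10 * L ^ (K0 + V3 + 1)) := by ring
        _ ≤ H0 * (L * L ^ (K0 + V3 + 1)) := by gcongr; linarith
        _ = H0 * L ^ (K0 + V3 + 2) := by ring
        _ ≤ H0 * L ^ (2 * K0 + B) := by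
            refine mul_le_mul_of_nonneg_left (hmono ?_) hH00.le
            omega
        _ ≤ H0 * N := by gcongr
        _ = _ := by ring
    calc _ ≤ N * H0 / L ^ V3 + N * H0 / L ^ V3 + N * H0 / L ^ V3 + N * H0 / L ^ V3 + N * H0 / L ^ V3 := by
          refine hsp.trans ?_
          linarith
      _ = N * H0 * 5 / L ^ V3 := by ring
      _ ≤ N * H0 * L / L ^ V3 := by gcongr; linarith
      _ = _ := by
          rw [hV3, pow_succ L V2]
          field_simp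
  -- the length `H`
  have hHpos : (0 : ℝ) < H := lt_of_lt_of_le (hp _) hH1
  have hH1' : 1 ≤ H := by exact_mod_cast (hp1 _).trans hH1
  have hHN2 : (H : ℝ) * 64 ≤ N := by
    refine le_trans ?_ hH2
    gcongr
    calc (64 : ℝ) ≤ L := hL64
      _ = L ^ 1 := (pow_one L).symm
      _ ≤ L ^ B := hmono (by omega)
  have hH0N2 : (H0 : ℝ) * 2 ≤ N := by
    calc (H0 : ℝ) * 2 ≤ (2 * L ^ K0) * 2 := by gcongr
      _ = 4 * L ^ K0 := by ring
      _ ≤ L * L ^ K0 := by gcongr; linarith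
      _ = L ^ (K0 + 1) := by ring
      _ ≤ L ^ (2 * K0 + B) := hmono (by omega)
      _ ≤ N := hNbig
  have hHHN : H + H0 ≤ N := by
    have : (H : ℝ) + H0 ≤ N := by linarith
    exact_mod_cast this
  have havg := avg_sum (fun n => th a n - h) N H H0 (5 * L) hH01 hHHN fun n _ hn2 => hPm n (by omega)
  have hl2 : ∑ m ∈ Ico N (2 * N), |Sx (fun n => th a n - h) H (m : ℤ)| ≤ N * H / L ^ V1 := by
    have t1 : (H : ℝ) * (∑ m ∈ Ico N (3 * N), |Sx (fun n => th a n - h) H0 (m : ℤ)|) / H0 ≤ N * H / L ^ V2 := by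
      calc (H : ℝ) * (∑ m ∈ Ico N (3 * N), |Sx (fun n => th a n - h) H0 (m : ℤ)|) / H0 ≤
            (H : ℝ) * (N * H0 / L ^ V2) / H0 := by gcongr
        _ = _ := by field_simp
    have t2 : 2 * (5 * L) * H0 * N ≤ N * H / L ^ V2 := by
      rw [le_div_iff₀ (hp _)]
      calc 2 * (5 * L) * H0 * N * L ^ V2 ≤ 2 * (5 * L) * (2 * L ^ K0) * N * L ^ V2 := by gcongr
        _ = N * (20 * L ^ (K0 + V2 + 1)) := by ring
        _ ≤ N * (L * L ^ (K0 + V2 + 1)) := by gcongr; linarith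
        _ = N * L ^ (K0 + V2 + 2) := by ring
        _ ≤ N * L ^ B := by
            refine mul_le_mul_of_nonneg_left (hmono ?_) hN0.le
            omega
        _ ≤ N * H := by gcongr
    calc _ ≤ N * H / L ^ V2 + N * H / L ^ V2 := havg.trans (add_le_add t1 t2)
      _ = N * H * 2 / L ^ V2 := by ring
      _ ≤ N * H * L / L ^ V2 := by gcongr; linarith
      _ = _ := by
          rw [hV2, pow_succ L V1]
          field_simp
  -- the two kinds of exceptional windows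
  set η : ℝ := 1 / L ^ (U + 2) with hη
  have hη0 : 0 < η := by positivity
  set Δ : ℝ := (N : ℝ) ^ 2 / L ^ (U + 4) with hΔ
  have hΔ0 : 0 ≤ Δ := by positivity
  have hT0 : 0 < η * (h * H) := by positivity
  have hmk := markov (Ico N (2 * N)) (fun m : ℕ => Sx (fun n => th a n - h) H (m : ℤ)) (η * (h * H)) _ hT0 hl2
  have hdb := dbad a N H Δ hN1' hΔ0
  have hsub : (Ico N (2 * N)).filter (fun m => ¬ |PW a m H - h * LW a m H| ≤ h * LW a m H / L ^ U) ⊆
      (Ico N (2 * N)).filter (fun m : ℕ => η * (h * H) < |Sx (fun n => th a n - h) H (m : ℤ)|) ∪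
      (Ico N (2 * N)).filter (fun m => ¬ ∀ n ∈ Ioc m (m + H), Δ ≤ |(((n : ℤ) ^ 2 + a : ℤ) : ℝ)|) := by
    intro m hm
    rw [mem_filter] at hm
    rw [mem_union, mem_filter, mem_filter]
    by_contra hcon
    rw [not_or] at hcon
    have c1 : |Sx (fun n => th a n - h) H (m : ℤ)| ≤ η * (h * H) := by
      by_contra hc
      push Not at hc
      exact hcon.1 ⟨hm.1, hc⟩
    have c2 : ∀ n ∈ Ioc m (m + H), Δ ≤ |(((n : ℤ) ^ 2 + a : ℤ) : ℝ)| := by
      by_contra hc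
      exact hcon.2 ⟨hm.1, hc⟩
    apply hm.2
    have hmI := mem_Ico.1 hm.1
    have hηle : η ≤ 1 / 4 := by
      rw [hη]
      apply one_div_le_one_div_of_le (by norm_num)
      calc (4 : ℝ) ≤ L := by linarith
        _ = L ^ 1 := (pow_one L).symm
        _ ≤ L ^ (U + 2) := hmono (by omega)
    have hΔ3 : 3 ≤ Δ := by
      rw [hΔ, le_div_iff₀ (hp _)]
      calc 3 * L ^ (U + 4) ≤ L * L ^ (U + 4) := by gcongr; linarith
        _ = L ^ (U + 5) := by ring
        _ ≤ L ^ (2 * K0 + B) := hmono (by omega)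
        _ ≤ N := hNbig
        _ ≤ (N : ℝ) ^ 2 := le_self_pow₀ (by exact_mod_cast hN1') (by norm_num)
    have hdd : (H : ℝ) * (6 * N) ≤ η * Δ := by
      rw [hη, hΔ, div_mul_div_comm, one_mul, le_div_iff₀ (by positivity), ← pow_add]
      calc (H : ℝ) * (6 * N) * L ^ (U + 2 + (U + 4)) = H * (6 * L ^ (2 * U + 6)) * N := by
            rw [show U + 2 + (U + 4) = 2 * U + 6 by ring]
            ring
        _ ≤ H * (L * L ^ (2 * U + 6)) * N := by gcongr; linarith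
        _ = H * L ^ (2 * U + 7) * N := by ring
        _ ≤ H * L ^ B * N := by
            have := hmono (show 2 * U + 7 ≤ B by omega)
            gcongr
        _ ≤ N * N := by gcongr
        _ = _ := by ring
    have hw := wconv a N m H h η η Δ hH1' hmI.2 (by omega) hpos.le hη0.le hηle hΔ3 c2 hdd c1
    refine hw.trans ?_
    have hLW0 : 0 ≤ h * LW a m H := by
      have : 0 ≤ LW a m H := by
        unfold LW
        refine sum_nonneg fun n hn => ?_
        rw [mem_filter] at hn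
        have h3 : (2 : ℝ) ≤ |(((n : ℤ) ^ 2 + a : ℤ) : ℝ)| := by exact_mod_cast hn.2
        have := Real.log_nonneg (show (1 : ℝ) ≤ |(((n : ℤ) ^ 2 + a : ℤ) : ℝ)| by linarith)
        positivity
      positivity
    have e6 : 3 * (η + η) ≤ 1 / L ^ U := by
      have e7 : (6 : ℝ) ≤ L ^ 2 := by
        calc (6 : ℝ) ≤ L := by linarith
          _ = L ^ 1 := (pow_one L).symm
          _ ≤ L ^ 2 := hmono (by norm_num)
      calc 3 * (η + η) = 6 / (L ^ U * L ^ 2) := by rw [hη, pow_add L U 2]; ring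
        _ ≤ L ^ 2 / (L ^ U * L ^ 2) := by gcongr
        _ = 1 / L ^ U := by field_simp
    calc 3 * (η + η) * (h * LW a m H) ≤ 1 / L ^ U * (h * LW a m H) := by gcongr
      _ = _ := by ring
  have hc1 := card_le_card hsub
  have hc2 := card_union_le ((Ico N (2 * N)).filter (fun m : ℕ => η * (h * H) < |Sx (fun n => th a n - h) H (m : ℤ)|))
    ((Ico N (2 * N)).filter (fun m => ¬ ∀ n ∈ Ioc m (m + H), Δ ≤ |(((n : ℤ) ^ 2 + a : ℤ) : ℝ)|))
  have hc3 : (((Ico N (2 * N)).filter (fun m => ¬ |PW a m H - h * LW a m H| ≤ h * LW a m H / L ^ U)).card : ℝ) ≤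
      N * H / L ^ V1 / (η * (h * H)) + (Δ / N + H + 1) := by
    refine le_trans ?_ (add_le_add hmk hdb)
    exact_mod_cast hc1.trans hc2
  have hb1 : N * H / L ^ V1 / (η * (h * H)) ≤ N / L ^ (U + 1) := by
    rw [div_le_iff₀ hT0]
    have hh1 : 1 ≤ h * (2 * L) := by
      rw [div_le_iff₀ (by positivity)] at hlow
      exact hlow
    calc N * H / L ^ V1 ≤ N * H / L ^ V1 * (h * (2 * L)) := le_mul_of_one_le_right (by positivity) hh1
      _ = N * H * h * (2 * L) / L ^ V1 := by ring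
      _ ≤ N * H * h * (L * L) / L ^ V1 := by gcongr; linarith
      _ = N * H * h / L ^ (2 * U + 4) := by
          rw [hV1, show 2 * U + 6 = (2 * U + 4) + 2 by ring, pow_add L (2 * U + 4) 2]
          field_simp
      _ ≤ N * H * h / L ^ (2 * U + 3) := div_le_div_of_nonneg_left (by positivity) (hp _) (hmono (by omega))
      _ = N / L ^ (U + 1) * (η * (h * H)) := by
          rw [hη, show 2 * U + 3 = (U + 1) + (U + 2) by ring, pow_add L (U + 1) (U + 2)]
          field_simp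
  have hb2 : Δ / N + H + 1 ≤ N / L ^ (U + 1) := by
    have d1 : Δ / N = N / L ^ (U + 4) := by
      rw [hΔ]
      field_simp
    have d2 : (H : ℝ) ≤ N / L ^ (U + 4) := by
      rw [le_div_iff₀ (hp _)]
      refine le_trans ?_ hH2
      have := hmono (show U + 4 ≤ B by omega)
      gcongr
    have d3 : (1 : ℝ) ≤ N / L ^ (U + 4) := by
      rw [le_div_iff₀ (hp _), one_mul]
      exact (hmono (by omega)).trans hNbig
    rw [d1]
    calc N / L ^ (U + 4) + H + 1 ≤ N / L ^ (U + 4) + N / L ^ (U + 4) + N / L ^ (U + 4) := by linarith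
      _ = N * 3 / L ^ (U + 4) := by ring
      _ ≤ N * L ^ 3 / L ^ (U + 4) := by
          gcongr
          calc (3 : ℝ) ≤ L := by linarith
            _ = L ^ 1 := (pow_one L).symm
            _ ≤ L ^ 3 := hmono (by omega)
      _ = N / L ^ (U + 1) := by
          rw [show U + 4 = (U + 1) + 3 by ring, pow_add L (U + 1) 3]
          field_simp
  calc _ ≤ N / L ^ (U + 1) + N / L ^ (U + 1) := hc3.trans (add_le_add hb1 hb2)
    _ = N * 2 / L ^ (U + 1) := by ring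
    _ ≤ N * L / L ^ (U + 1) := by gcongr; linarith
    _ = N / L ^ U := by
        rw [pow_succ L U]
        field_simp

end Pool.Agent.H43.SW
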