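import Pool.Agent.H43.SW.Blk

/-!
The blocks of the positions.
-/

set_option autoImplicit false

namespace Pool.Agent.H43.SW

open Finset
open Pool.Agent.H43.SL
open Pool.Agent.helper24_UT (NN)
open Pool.Agent.W81.R1 (gI)

/-- the length of the blocks -/
def RR (X N : ℕ) : ℕ := min N (X / N)

/-- the number of the blocks -/
def nn (X N : ℕ) : ℕ := (N + RR X N - 1) / RR X N

def lo (X N i : ℕ) : ℕ := (N + i * RR X N) ^ 2 - X

def hi (X N i : ℕ) : ℕ := (N + i * RR X N) ^ 2 + 13 * X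

lemma RR_pos {X N : ℕ} (hN : 1 ≤ N) (hNX : N ≤ X) : 1 ≤ RR X N := by
  unfold RR
  rw [Nat.one_le_iff_ne_zero]
  have h1 : 1 ≤ X / N := (Nat.one_le_div_iff hN).2 hNX
  omega

lemma RR_mul (X N : ℕ) : RR X N * N ≤ X := by
  unfold RR
  calc min N (X / N) * N ≤ (X / N) * N := Nat.mul_le_mul_right _ (min_le_right _ _)
    _ ≤ X := Nat.div_mul_le_self _ _

lemma RR_le (X N : ℕ) : RR X N ≤ N := min_le_left _ _

lemma nn_mul {X N : ℕ} (hN : 1 ≤ N) (hNX : N ≤ X) : N ≤ nn X N * RR X N ∧ nn X N * RR X N ≤ 2 * N := by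
  have h1 := RR_pos hN hNX
  have h2 := RR_le X N
  unfold nn
  set R := RR X N
  constructor
  · have h3 := Nat.lt_div_mul_add (a := N + R - 1) (b := R) h1
    omega
  · have h3 := Nat.div_mul_le_self (N + R - 1) R
    omega

lemma idx_lt {X N i : ℕ} (hN : 1 ≤ N) (hNX : N ≤ X) (hi' : i < nn X N) : i * RR X N < N := by
  have h1 := RR_pos hN hNX
  unfold nn at hi'
  set R := RR X N
  have h2 : (i + 1) * R ≤ N + R - 1 := by
    have h3 : i + 1 ≤ (N + R - 1) / R := hi'
    exact (Nat.le_div_iff_mul_le h1).1 h3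
  rw [add_mul, one_mul] at h2
  omega

lemma hi_sub_lo (X N i : ℕ) : hi X N i - lo X N i ≤ 14 * X := by
  unfold hi lo
  omega

lemma hi_le {X N i : ℕ} (hN : 1 ≤ N) (hNX : N ≤ X) (hi' : i < nn X N) : hi X N i ≤ 17 * max X (N ^ 2) := by
  unfold hi
  have h1 := idx_lt hN hNX hi'
  have h2 : (N + i * RR X N) ^ 2 ≤ (2 * N) ^ 2 := Nat.pow_le_pow_left (by omega) 2
  have h3 : (2 * N) ^ 2 = 4 * N ^ 2 := by ring
  have h4 := le_max_left X (N ^ 2)
  have h5 := le_max_right X (N ^ 2)
  omega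

/-- positive values -/
lemma val_pos {z X N H : ℕ} (hN : 1 ≤ N) (hNX : N ≤ X) (hH : H ≤ RR X N) {i : ℕ} (hi' : i < nn X N) {r : ℕ}
    (hr : r < RR X N) {c : ℤ} (hc : c ∈ Icc (-(X : ℤ)) X) {j : ℤ} (hj : j ∈ Icc (1 : ℤ) H) :
    gI z (c + 1 * (((N + i * RR X N : ℕ) : ℤ) + r + j) ^ 2) =
      Dc z (lo X N i) (hi X N i) (c + 1 * (((N + i * RR X N : ℕ) : ℤ) + r + j) ^ 2) := by
  have h1 := idx_lt hN hNX hi'
  have h2 := RR_mul X N
  have h3 := RR_le X N
  rw [mem_Icc] at hc hj
  rw [one_mul]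
  set R := RR X N with hR
  set A := N + i * R with hA
  set m := c + ((A : ℤ) + r + j) ^ 2 with hm
  have hA2 : A ≤ 2 * N := by omega
  have hAj : (A : ℤ) ^ 2 < ((A : ℤ) + r + j) ^ 2 := by
    have : (0 : ℤ) ≤ A := by positivity
    have : (0 : ℤ) ≤ r := by positivity
    nlinarith
  have hup : ((A : ℤ) + r + j) ^ 2 ≤ (A : ℤ) ^ 2 + 12 * X := by
    have e1 : (r : ℤ) + j ≤ 2 * R := by
      have : (r : ℤ) < R := by exact_mod_cast hr
      have : (H : ℤ) ≤ R := by exact_mod_cast hH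
      omega
    have e0 : (0 : ℤ) ≤ (r : ℤ) + j := by omega
    have e2 : ((A : ℤ) + r + j) ^ 2 = (A : ℤ) ^ 2 + 2 * A * (r + j) + (r + j) ^ 2 := by ring
    have e3 : 2 * (A : ℤ) * (r + j) ≤ 2 * (2 * N) * (2 * R) := by
      have : (A : ℤ) ≤ 2 * N := by exact_mod_cast hA2
      have hA0 : (0 : ℤ) ≤ A := by positivity
      have hN0 : (0 : ℤ) ≤ N := by positivity
      apply mul_le_mul (by omega) e1 e0 (by omega)
    have e4 : ((r : ℤ) + j) ^ 2 ≤ (2 * R) * (2 * N) := by
      have : (R : ℤ) ≤ N := by exact_mod_cast h3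
      rw [sq]
      apply mul_le_mul e1 (by omega) e0 (by omega)
    have e5 : (R : ℤ) * N ≤ X := by exact_mod_cast h2
    rw [e2]
    nlinarith
  unfold Dc
  by_cases hm1 : 1 ≤ m
  · rw [if_pos]
    constructor
    · unfold lo
      rw [← hR, ← hA]
      rcases Nat.le_total (A ^ 2) X with h4 | h4
      · rw [Nat.sub_eq_zero_of_le h4]
        exact_mod_cast hm1
      · rw [Nat.cast_sub h4]
        push_cast
        omega
    · unfold hi
      rw [← hR, ← hA]
      push_cast
      omega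
  · have e : gI z m = 0 := by
      unfold gI
      rw [if_neg hm1]
    rw [e]
    split_ifs <;> rfl

/-- multiplicity -/
lemma mult {X N : ℕ} (hN : 1 ≤ N) (hNX : N ≤ X) (u : ℕ) :
    ((range (nn X N)).filter (fun i => lo X N i ≤ u ∧ u < hi X N i)).card ≤ 14 := by
  set T := (range (nn X N)).filter (fun i => lo X N i ≤ u ∧ u < hi X N i) with hT
  rcases T.eq_empty_or_nonempty with h0 | h0
  · rw [h0]; simp
  have hR1 := RR_pos hN hNX
  have hsub : T ⊆ Icc (T.min' h0) (T.min' h0 + 13) := by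
    intro i hi'
    rw [mem_Icc]
    refine ⟨T.min'_le _ hi', ?_⟩
    by_contra hcon
    push Not at hcon
    set k := T.min' h0 with hk
    have hkT : k ∈ T := T.min'_mem h0
    rw [hT, mem_filter, mem_range] at hi' hkT
    obtain ⟨hi1, hi2, hi3⟩ := hi'
    obtain ⟨hk1, hk2, hk3⟩ := hkT
    rcases Nat.lt_or_ge (X / N) N with hc | hc
    · -- short blocks
      have hRe : RR X N = X / N := min_eq_right hc.le
      have h5 : X < 2 * (RR X N * N) := by
        rw [hRe]
        have h6 : X < N * (X / N + 1) := Nat.lt_mul_div_succ X hN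
        have h7 : 1 ≤ X / N := (Nat.one_le_div_iff hN).2 hNX
        have h8 : N * (X / N + 1) ≤ 2 * (X / N * N) := by nlinarith
        omega
      unfold lo at hi2
      unfold hi at hk3
      have h9 : (N + i * RR X N) ^ 2 ≤ u + X := by omega
      have h10 : (N + i * RR X N) ^ 2 < (N + k * RR X N) ^ 2 + 14 * X := by omega
      have h11 : (N + (k + 14) * RR X N) ^ 2 ≤ (N + i * RR X N) ^ 2 := by
        apply Nat.pow_le_pow_left
        have := Nat.mul_le_mul_right (RR X N) (show k + 14 ≤ i by omega)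
        omega
      have h12 : (N + (k + 14) * RR X N) ^ 2 = (N + k * RR X N) ^ 2 + 28 * (RR X N * N) + 28 * (k * RR X N * RR X N) +
          196 * RR X N ^ 2 := by ring
      rw [h12] at h11
      have h13 : 0 ≤ k * RR X N * RR X N := Nat.zero_le _
      omega
    · -- one block
      have hRe : RR X N = N := min_eq_left hc
      have h5 : nn X N = 1 := by
        unfold nn
        rw [hRe]
        have : N + N - 1 = (N - 1) + N := by omega
        rw [this, Nat.add_div_right _ hN, Nat.div_eq_of_lt (by omega)]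
      omega
  have := card_le_card hsub
  rw [Nat.card_Icc] at this
  omega

/-- the sum over the positions in terms of the blocks -/
lemma sum_blocks {X N : ℕ} (hN : 1 ≤ N) (hNX : N ≤ X) (F : ℤ → ℝ) (hF : ∀ m, 0 ≤ F m) :
    ∑ M ∈ Ico N (2 * N), F (M : ℤ) ≤
      ∑ i ∈ range (nn X N), ∑ r ∈ range (RR X N), F (((N + i * RR X N : ℕ) : ℤ) + r) := by
  have hR1 := RR_pos hN hNX
  have hnn := (nn_mul hN hNX).1
  rw [← sum_product' (range (nn X N)) (range (RR X N)) (fun i r => F (((N + i * RR X N : ℕ) : ℤ) + r))]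
  have h1 : ∑ M ∈ Ico N (2 * N), F (M : ℤ) = ∑ M ∈ Ico N (2 * N),
      (fun p : ℕ × ℕ => F (((N + p.1 * RR X N : ℕ) : ℤ) + p.2)) ((M - N) / RR X N, (M - N) % RR X N) := by
    refine sum_congr rfl fun M hM => ?_
    rw [mem_Ico] at hM
    simp only
    congr 1
    have h2 := Nat.div_add_mod (M - N) (RR X N)
    have h3 : N + (M - N) / RR X N * RR X N + (M - N) % RR X N = M := by
      rw [mul_comm] at h2
      omega
    exact_mod_cast h3.symm
  rw [h1, ← sum_image (f := fun p : ℕ × ℕ => F (((N + p.1 * RR X N : ℕ) : ℤ) + p.2))]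
  · apply sum_le_sum_of_subset_of_nonneg
    · intro p hp
      rw [mem_image] at hp
      obtain ⟨M, hM, rfl⟩ := hp
      rw [mem_Ico] at hM
      rw [mem_product, mem_range, mem_range]
      refine ⟨?_, Nat.mod_lt _ hR1⟩
      rw [Nat.div_lt_iff_lt_mul hR1]
      omega
    · intro p _ _
      exact hF _
  · intro M hM M' hM' heq
    simp only [Prod.mk.injEq] at heq
    rw [mem_coe, mem_Ico] at hM hM'
    have h2 := Nat.div_add_mod (M - N) (RR X N)
    have h3 := Nat.div_add_mod (M' - N) (RR X N)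
    rw [heq.1, heq.2] at h2
    omega

end Pool.Agent.H43.SW
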