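import Pool.Agent.H43.SW.Spl
import Pool.Agent.H43.SL.BlkN

/-!
The first moments of the sieve model.
-/

set_option autoImplicit false

namespace Pool.Agent.H43.SW

open Finset Filter Polynomial
open Pool.Agent.H43.SL
open Pool.Agent.H442R2.EHI (evt_log_pow evt_log_ge)
open Pool.Agent.H300R2.BH (rho SS)
open Pool.Agent.H373R2.T7 (lamz Vz pz mem_pz Vz_pos Vz_inv_small)
open Pool.Agent.W81.R1 (PP)

lemma prod_bound (z : ℕ) (F : ℤ[X]) (hF : ∀ p : ℕ, p.Prime → rho F p ≤ 2) :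
    ∏ p ∈ pz z, (1 + (rho F p : ℝ) ^ 2 / p) ≤ ((Vz z)⁻¹) ^ 4 := by
  unfold Vz
  rw [← prod_inv_distrib, ← prod_pow]
  apply Finset.prod_le_prod
  · intro p _
    positivity
  · intro p hp
    have hpp := (mem_pz.1 hp).2
    have hp2 : (2 : ℝ) ≤ p := by exact_mod_cast hpp.two_le
    have hp0 : (0 : ℝ) < p := by linarith
    have h1 : (rho F p : ℝ) ^ 2 ≤ 4 := by
      have : (rho F p : ℝ) ≤ 2 := by exact_mod_cast hF p hpp
      have h0 : (0 : ℝ) ≤ rho F p := Nat.cast_nonneg _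
      nlinarith
    set t := 1 / (p : ℝ) with ht
    have ht0 : 0 < t := by positivity
    have ht1 : t ≤ 1 / 2 := by
      rw [ht]
      exact one_div_le_one_div_of_le (by norm_num) hp2
    have h2 : 1 + t ≤ (1 - t)⁻¹ := by
      rw [← one_div, le_div_iff₀ (by linarith)]
      nlinarith
    calc 1 + (rho F p : ℝ) ^ 2 / p ≤ 1 + 4 / p := by gcongr
      _ = 1 + 4 * t := by rw [ht]; ring
      _ ≤ (1 + t) ^ 4 := by nlinarith [sq_nonneg t, mul_pos ht0 ht0, pow_pos ht0 3, pow_pos ht0 4]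
      _ ≤ ((1 - t)⁻¹) ^ 4 := pow_le_pow_left₀ (by linarith) h2 4

theorem model_l1 (E V : ℕ) (c : ℝ) (hc : 0 < c) : ∀ᶠ X : ℕ in atTop, ∀ N : ℕ, (X : ℝ) ^ c ≤ N → N ≤ X →
    ∀ z : ℕ, 1 ≤ z → (z : ℝ) ≤ Real.log X ^ E → ∀ F : ℤ[X], (∀ p : ℕ, p.Prime → rho F p ≤ 2) →
    ∀ H : ℕ, Real.log X ^ (2 * V + 6) ≤ H →
    ∑ M ∈ Ico N (3 * N), |Sx (fun n => rg z F n - PP z F) H (M : ℤ)| ≤ N * H / Real.log X ^ V := by
  obtain ⟨N1, hN1⟩ := Vz_inv_small E
  filter_upwards [evt_all (var_model (E + 1) (2 * V + 1)) c hc, eventually_ge_atTop N1, evt_log_ge 12,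
    evt_log_ge ((1 / c) ^ (E + 2)), evt_log_ge (36 * (1 / c) ^ (2 * V + 1)), eventually_ge_atTop 1]
    with X hvar hXN1 hL12 hLE hLV hX1 N hN hNX z hz1 hz2 F hF H hH
  set L := Real.log X with hLdef
  have hL0 : 0 < L := by linarith
  have hL1 : 1 ≤ L := by linarith
  have hp : ∀ n : ℕ, 0 < L ^ n := fun n => by positivity
  have hX0 : (0 : ℝ) < X := by exact_mod_cast hX1
  have hX1r : (1 : ℝ) ≤ X := by exact_mod_cast hX1
  have hXc : 1 ≤ (X : ℝ) ^ c := Real.one_le_rpow hX1r hc.le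
  have hN0 : (0 : ℝ) < N := by linarith
  have hH0 : (0 : ℝ) < H := lt_of_lt_of_le (hp _) hH
  have hV := hN1 X hXN1 z hz1 hz2
  have hx3 : ((3 * N : ℕ) : ℝ) = 3 * N := by push_cast; ring
  set ℓ := Real.log ((3 * N : ℕ) : ℝ) with hℓ
  have hℓ1 : c * L ≤ ℓ := by
    rw [hℓ, hx3]
    have h2 := Real.log_le_log (by positivity) (show (X : ℝ) ^ c ≤ 3 * N by linarith)
    rw [Real.log_rpow hX0] at h2
    exact h2
  have hLℓ : L ≤ (1 / c) * ℓ := by
    rw [one_div, inv_mul_eq_div, le_div_iff₀ hc]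
    linarith
  have hℓ0 : 0 < ℓ := lt_of_lt_of_le (by positivity) hℓ1
  have hcE : (1 / c) ^ (E + 1) ≤ ℓ := by
    refine le_trans ?_ hℓ1
    calc (1 / c) ^ (E + 1) = c * (1 / c) ^ (E + 2) := by
          rw [pow_succ (1 / c) (E + 1)]
          field_simp
      _ ≤ c * L := by gcongr
  have hzℓ : (z : ℝ) ≤ ℓ ^ (E + 1) := by
    rcases le_or_gt (1 / c) 1 with h1 | h1
    · calc (z : ℝ) ≤ L ^ E := hz2
        _ ≤ ((1 / c) * ℓ) ^ E := pow_le_pow_left₀ hL0.le hLℓ _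
        _ ≤ (1 * ℓ) ^ E := by gcongr
        _ = ℓ ^ E := by rw [one_mul]
        _ ≤ ℓ ^ (E + 1) := by
            have : 1 ≤ ℓ := by
              have h3 : L ≤ 1 * ℓ := hLℓ.trans (by gcongr)
              linarith
            exact pow_le_pow_right₀ this (by omega)
    · calc (z : ℝ) ≤ L ^ E := hz2
        _ ≤ ((1 / c) * ℓ) ^ E := pow_le_pow_left₀ hL0.le hLℓ _
        _ = (1 / c) ^ E * ℓ ^ E := by rw [mul_pow]
        _ ≤ (1 / c) ^ (E + 1) * ℓ ^ E := by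
            have := pow_le_pow_right₀ h1.le (show E ≤ E + 1 by omega)
            gcongr
        _ ≤ ℓ * ℓ ^ E := by gcongr
        _ = ℓ ^ (E + 1) := by ring
  have key := hvar (3 * N) (by rw [hx3]; linarith) z hz1 hzℓ F hF H
  have hprod := prod_bound z F hF
  have hVz4 : ((Vz z)⁻¹) ^ 4 ≤ L ^ 4 := pow_le_pow_left₀ (inv_pos.2 (Vz_pos z)).le hV 4
  have hsq : ∑ M ∈ Ico N (3 * N), (Sx (fun n => rg z F n - PP z F) H (M : ℤ)) ^ 2 ≤
      3 * N * H * L ^ 4 + 9 * N * (H : ℝ) ^ 2 * ((1 / c) ^ (2 * V + 1) / L ^ (2 * V + 1)) := by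
    calc ∑ M ∈ Ico N (3 * N), (Sx (fun n => rg z F n - PP z F) H (M : ℤ)) ^ 2 ≤
          ∑ M ∈ Icc 1 (3 * N), (Sx (fun n => rg z F n - PP z F) H (M : ℤ)) ^ 2 := by
          apply sum_le_sum_of_subset_of_nonneg
          · intro M hM
            rw [mem_Ico] at hM
            rw [mem_Icc]
            have : 1 ≤ N := by exact_mod_cast (by linarith : (1 : ℝ) ≤ N)
            omega
          · intro _ _ _
            exact sq_nonneg _
      _ ≤ ((3 * N : ℕ) : ℝ) * H * ∏ p ∈ pz z, (1 + (rho F p : ℝ) ^ 2 / p) +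
            3 * ((3 * N : ℕ) : ℝ) * (H : ℝ) ^ 2 / ℓ ^ (2 * V + 1) := key
      _ ≤ (3 * N) * H * L ^ 4 + 3 * (3 * N) * (H : ℝ) ^ 2 * ((1 / c) ^ (2 * V + 1) / L ^ (2 * V + 1)) := by
          rw [hx3]
          refine add_le_add ?_ ?_
          · gcongr
            exact hprod.trans hVz4
          · rw [div_eq_mul_one_div]
            refine mul_le_mul_of_nonneg_left ?_ (by positivity)
            rw [div_le_div_iff₀ (by positivity) (hp _), one_mul, ← mul_pow]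
            exact pow_le_pow_left₀ hL0.le hLℓ _
      _ = _ := by ring
  refine cauchy1 _ _ _ _ (by positivity) hsq ?_
  rw [Nat.card_Ico]
  have e1 : ((3 * N - N : ℕ) : ℝ) = 2 * N := by
    have : 3 * N - N = 2 * N := by omega
    rw [this]
    push_cast
    ring
  rw [e1]
  have t1 : 2 * (N : ℝ) * (3 * N * H * L ^ 4) ≤ ((N : ℝ) * H) ^ 2 / L ^ (2 * V) / 2 := by
    rw [div_div, le_div_iff₀ (by positivity)]
    calc 2 * (N : ℝ) * (3 * N * H * L ^ 4) * (L ^ (2 * V) * 2) = (N : ℝ) ^ 2 * H * (12 * L ^ (2 * V + 4)) := by ring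
      _ ≤ (N : ℝ) ^ 2 * H * (L ^ 2 * L ^ (2 * V + 4)) := by
          gcongr
          nlinarith
      _ = (N : ℝ) ^ 2 * H * L ^ (2 * V + 6) := by ring
      _ ≤ (N : ℝ) ^ 2 * H * H := by gcongr
      _ = _ := by ring
  have t2 : 2 * (N : ℝ) * (9 * N * (H : ℝ) ^ 2 * ((1 / c) ^ (2 * V + 1) / L ^ (2 * V + 1))) ≤
      ((N : ℝ) * H) ^ 2 / L ^ (2 * V) / 2 := by
    have e : 2 * (N : ℝ) * (9 * N * (H : ℝ) ^ 2 * ((1 / c) ^ (2 * V + 1) / L ^ (2 * V + 1))) =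
        ((N : ℝ) * H) ^ 2 / L ^ (2 * V) * (18 * (1 / c) ^ (2 * V + 1) / L) := by
      rw [pow_succ L (2 * V)]
      field_simp
      norm_num
    rw [e, div_eq_mul_one_div _ (2 : ℝ)]
    refine mul_le_mul_of_nonneg_left ?_ (by positivity)
    rw [div_le_div_iff₀ hL0 (by norm_num)]
    linarith
  have e3 : (N * H / L ^ V) ^ 2 = ((N : ℝ) * H) ^ 2 / L ^ (2 * V) := by
    rw [div_pow, ← pow_mul, mul_comm V 2]
  rw [mul_add, e3]
  linarith

end Pool.Agent.H43.SW
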