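import Mathlib

/-!
Numerical estimates.
-/

set_option autoImplicit false

namespace Pool.Agent.H43.SW

/-- the bound of the progressions -/
theorem num_S (L X R n w q Z S A P : ℝ) (B B2 V A' : ℕ) (hL : 10000 ≤ L) (hX : 0 < X) (hR : 0 < R)
    (hn : 0 < n) (hw0 : 0 < w) (hw : w ≤ R / L ^ B2) (hq0 : 0 < q) (hq : q ≤ L ^ (B + 1)) (hZ0 : 0 ≤ Z) (hZ : Z ≤ 17 * (n * X))
    (hP : P = 3 * L) (hA : A ≤ Z * (q * w) ^ 2 / L ^ A') (hA' : A' = V + B + 2) (hB2 : B2 = V + 3)
    (hRX : R * L ^ (2 * B + 6) ≤ X)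
    (hS : S = 16 * R ^ 2 / (q * w) ^ 2 * (q * (14 * A + n * (2 * (q * w) * ((q * w) * P) ^ 2))) +
      8 * w ^ 2 * (n * (14 * X * P ^ 2))) :
    S ≤ R ^ 2 * (n * X) / L ^ V := by
  have hL0 : 0 < L := by linarith
  have hL1 : 1 ≤ L := by linarith
  have hp : ∀ k : ℕ, 0 < L ^ k := fun k => by positivity
  have hmono : ∀ {a b : ℕ}, a ≤ b → L ^ a ≤ L ^ b := fun h => pow_le_pow_right₀ hL1 h
  have hqw : 0 < q * w := by positivity
  -- first term
  have t1 : 16 * R ^ 2 / (q * w) ^ 2 * (q * (14 * A)) ≤ R ^ 2 * (n * X) / L ^ V * (1 / 2) := by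
    calc 16 * R ^ 2 / (q * w) ^ 2 * (q * (14 * A)) ≤
          16 * R ^ 2 / (q * w) ^ 2 * (L ^ (B + 1) * (14 * (17 * (n * X) * (q * w) ^ 2 / L ^ A'))) := by
          have h1 : A ≤ 17 * (n * X) * (q * w) ^ 2 / L ^ A' := hA.trans (by gcongr)
          have h2 : q * (14 * A) ≤ L ^ (B + 1) * (14 * (17 * (n * X) * (q * w) ^ 2 / L ^ A')) := by
            calc q * (14 * A) ≤ q * (14 * (17 * (n * X) * (q * w) ^ 2 / L ^ A')) := by gcongr
              _ ≤ _ := by gcongr
          gcongr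
      _ = R ^ 2 * (n * X) * (3808 * L ^ (B + 1)) / L ^ A' := by
          field_simp
          ring
      _ ≤ R ^ 2 * (n * X) * (L / 2 * L ^ (B + 1)) / L ^ A' := by
          gcongr
          linarith
      _ = _ := by
          rw [hA', show V + B + 2 = V + (B + 2) by ring, pow_add L V]
          field_simp
          ring
  -- second term
  have t2 : 16 * R ^ 2 / (q * w) ^ 2 * (q * (n * (2 * (q * w) * ((q * w) * P) ^ 2))) ≤
      R ^ 2 * (n * X) / L ^ V * (1 / 4) := by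
    have hwR : w * L ^ (V + 3) ≤ R := by
      rw [le_div_iff₀ (hp _), hB2] at hw
      exact hw
    calc 16 * R ^ 2 / (q * w) ^ 2 * (q * (n * (2 * (q * w) * ((q * w) * P) ^ 2))) =
          R ^ 2 * n * (288 * (q * q * w * L ^ 2)) := by
          rw [hP]
          field_simp
          ring
      _ ≤ R ^ 2 * n * (288 * (L ^ (B + 1) * L ^ (B + 1) * w * L ^ 2)) := by gcongr
      _ = R ^ 2 * n * (w * L ^ (V + 3) * (288 * L ^ (2 * B + 4)) / L ^ (V + 3)) := by
          field_simp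
          ring
      _ ≤ R ^ 2 * n * (R * (288 * L ^ (2 * B + 4)) / L ^ (V + 3)) := by gcongr
      _ ≤ R ^ 2 * n * (R * (L * L ^ (2 * B + 4)) / L ^ (V + 3)) := by
          gcongr
          linarith
      _ ≤ R ^ 2 * n * (R * L ^ (2 * B + 6) / L ^ (V + 1)) := by
          refine mul_le_mul_of_nonneg_left ?_ (by positivity)
          rw [div_le_div_iff₀ (hp _) (hp _)]
          calc R * (L * L ^ (2 * B + 4)) * L ^ (V + 1) = R * L ^ (2 * B + 5 + (V + 1)) := by ring
            _ ≤ R * L ^ (2 * B + 6 + (V + 3)) := mul_le_mul_of_nonneg_left (hmono (by omega)) hR.le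
            _ = R * L ^ (2 * B + 6) * L ^ (V + 3) := by ring
      _ ≤ R ^ 2 * n * (X / L ^ (V + 1)) := by gcongr
      _ = R ^ 2 * (n * X) / L ^ V * (1 / L) := by
          rw [pow_succ L V]
          field_simp
      _ ≤ _ := by
          refine mul_le_mul_of_nonneg_left ?_ (by positivity)
          rw [div_le_div_iff₀ hL0 (by norm_num)]
          linarith
  have t3 : 8 * w ^ 2 * (n * (14 * X * P ^ 2)) ≤ R ^ 2 * (n * X) / L ^ V * (1 / 4) := by
    have hwR : w * L ^ (V + 3) ≤ R := by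
      rw [le_div_iff₀ (hp _), hB2] at hw
      exact hw
    have h2 : w ^ 2 ≤ R ^ 2 / L ^ (2 * (V + 3)) := by
      rw [le_div_iff₀ (hp _)]
      calc w ^ 2 * L ^ (2 * (V + 3)) = (w * L ^ (V + 3)) ^ 2 := by ring
        _ ≤ R ^ 2 := by gcongr
    calc 8 * w ^ 2 * (n * (14 * X * P ^ 2)) ≤ 8 * (R ^ 2 / L ^ (2 * (V + 3))) * (n * (14 * X * P ^ 2)) := by gcongr
      _ = R ^ 2 * (n * X) * (1008 * L ^ 2) / L ^ (2 * (V + 3)) := by
          rw [hP]
          field_simp
          ring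
      _ ≤ R ^ 2 * (n * X) * (L * L ^ 2) / L ^ (2 * (V + 3)) := by
          gcongr
          linarith
      _ ≤ R ^ 2 * (n * X) * (1 / (4 * L ^ V)) := by
          rw [mul_div_assoc]
          refine mul_le_mul_of_nonneg_left ?_ (by positivity)
          rw [div_le_div_iff₀ (hp _) (by positivity)]
          calc L * L ^ 2 * (4 * L ^ V) = 4 * L ^ (V + 3) := by ring
            _ ≤ L * L ^ (V + 3) := by gcongr; linarith
            _ = L ^ (V + 4) := by ring
            _ ≤ L ^ (2 * (V + 3)) := hmono (by omega)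
            _ = 1 * L ^ (2 * (V + 3)) := by ring
      _ = _ := by ring
  have h3 : S = 16 * R ^ 2 / (q * w) ^ 2 * (q * (14 * A)) +
      16 * R ^ 2 / (q * w) ^ 2 * (q * (n * (2 * (q * w) * ((q * w) * P) ^ 2))) +
      8 * w ^ 2 * (n * (14 * X * P ^ 2)) := by rw [hS]; ring
  rw [h3]
  linarith

/-- the final bound -/
theorem num_fin (L X R n N H E S : ℝ) (U : ℕ) (hL : 10000 ≤ L) (hX : 0 < X) (hR : 0 < R) (hn : 0 < n)
    (hnR : n * R ≤ 2 * N) (hH : L ^ (U + 5) ≤ H) (hE : E = n * (14 * X * (3 * L) ^ 2)) (hS0 : 0 ≤ S)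
    (hS : S ≤ R ^ 2 * (n * X) / L ^ (2 * U + 7)) :
    R * H * E + H ^ 2 * (Real.sqrt E * Real.sqrt S) ≤ X * N * H ^ 2 / L ^ U := by
  have hL0 : 0 < L := by linarith
  have hL1 : 1 ≤ L := by linarith
  have hp : ∀ k : ℕ, 0 < L ^ k := fun k => by positivity
  have hH0 : 0 < H := lt_of_lt_of_le (hp _) hH
  have hE1 : E ≤ n * X * L ^ 3 := by
    rw [hE]
    calc n * (14 * X * (3 * L) ^ 2) = n * X * (126 * L ^ 2) := by ring
      _ ≤ n * X * (L * L ^ 2) := by gcongr; linarith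
      _ = _ := by ring
  have hE0 : 0 ≤ E := by rw [hE]; positivity
  have h1 : R * H * E ≤ R * n * X * (H ^ 2 / L ^ (U + 2)) := by
    calc R * H * E ≤ R * H * (n * X * L ^ 3) := by gcongr
      _ = R * n * X * (H * L ^ (U + 5) / L ^ (U + 2)) := by
          rw [show U + 5 = (U + 2) + 3 by ring, pow_add L (U + 2) 3]
          field_simp
      _ ≤ R * n * X * (H * H / L ^ (U + 2)) := by gcongr
      _ = _ := by ring
  have h2 : Real.sqrt E * Real.sqrt S ≤ R * n * X / L ^ (U + 2) := by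
    rw [← Real.sqrt_mul hE0]
    apply Real.sqrt_le_iff.2
    refine ⟨by positivity, ?_⟩
    calc E * S ≤ (n * X * L ^ 3) * (R ^ 2 * (n * X) / L ^ (2 * U + 7)) := by gcongr
      _ = _ := by
          have e : L ^ (2 * U + 7) = L ^ (U + 2) * L ^ (U + 2) * L ^ 3 := by ring
          rw [e]
          field_simp
  calc R * H * E + H ^ 2 * (Real.sqrt E * Real.sqrt S) ≤
        R * n * X * (H ^ 2 / L ^ (U + 2)) + H ^ 2 * (R * n * X / L ^ (U + 2)) := by gcongr
    _ = (n * R) * (2 * (X * H ^ 2)) / L ^ (U + 2) := by ring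
    _ ≤ (2 * N) * (2 * (X * H ^ 2)) / L ^ (U + 2) := by gcongr
    _ = X * N * H ^ 2 / L ^ U * (4 / L ^ 2) := by
        rw [pow_add L U 2]
        field_simp
        ring
    _ ≤ X * N * H ^ 2 / L ^ U * 1 := by
        have hN : 0 ≤ N := by nlinarith [mul_pos hn hR]
        gcongr
        rw [div_le_one (hp _)]
        nlinarith
    _ = _ := mul_one _

end Pool.Agent.H43.SW
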