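import Pool.Agent.H43.SW.Geo
import Pool.Agent.H43.SW.Num

/-!
The second moment of the sums over short windows.
-/

set_option autoImplicit false

namespace Pool.Agent.H43.SW

open Finset Filter
open Pool.Agent.H43.SL
open Pool.Agent.helper24_UT (NN)
open Pool.Agent.H442R2.EHI (evt_log_pow evt_log_ge)
open Pool.Agent.W81.R1 (gI gt_abs)

/-- size of the blocks -/
lemma RR_large {θ ε L : ℝ} {X N b : ℕ} (hθ1 : θ ≤ 1) (hL : 10000 ≤ L)
    (hN1 : 1 ≤ N) (hNX : N ≤ X) (hN : (X : ℝ) ^ (θ + ε) ≤ N) (hNX2 : (N : ℝ) ^ (1 + 2 * θ) ≤ (X : ℝ) ^ (1 - ε))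
    (hpow : L ^ (b + 1) ≤ (X : ℝ) ^ ε) :
    2 * L ^ b * ((17 * max X (N ^ 2) : ℕ) : ℝ) ^ θ ≤ RR X N := by
  have hL0 : 0 < L := by linarith
  have hX0 : (0 : ℝ) < X := by exact_mod_cast (by omega : 0 < X)
  have hN0 : (0 : ℝ) < N := by exact_mod_cast (by omega : 0 < N)
  have h17 : (17 : ℝ) ^ θ ≤ 17 := by
    calc (17 : ℝ) ^ θ ≤ 17 ^ (1 : ℝ) := Real.rpow_le_rpow_of_exponent_le (by norm_num) hθ1
      _ = 17 := Real.rpow_one _
  rcases Nat.lt_or_ge X (N ^ 2) with hc | hc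
  · have hm : max X (N ^ 2) = N ^ 2 := max_eq_right hc.le
    have hlt : X / N < N := by
      rw [Nat.div_lt_iff_lt_mul (by omega)]
      nlinarith
    have hR : RR X N = X / N := min_eq_right hlt.le
    rw [hm, hR]
    have h1 : (X : ℝ) ≤ 2 * N * ((X / N : ℕ) : ℝ) := by
      have h6 : X < N * (X / N + 1) := Nat.lt_mul_div_succ X (by omega)
      have h7 : 1 ≤ X / N := (Nat.one_le_div_iff (by omega)).2 hNX
      have h8 : X ≤ 2 * N * (X / N) := by nlinarith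
      exact_mod_cast h8
    have h2 : ((17 * N ^ 2 : ℕ) : ℝ) ^ θ = 17 ^ θ * ((N : ℝ) ^ (2 * θ)) := by
      push_cast
      rw [Real.mul_rpow (by norm_num) (by positivity), ← Real.rpow_natCast (N : ℝ) 2, ← Real.rpow_mul hN0.le]
      norm_num
    have h3 : 2 * L ^ b * (17 ^ θ * ((N : ℝ) ^ (2 * θ))) * (2 * N) ≤ X := by
      calc 2 * L ^ b * (17 ^ θ * ((N : ℝ) ^ (2 * θ))) * (2 * N) = 4 * 17 ^ θ * L ^ b * (N ^ (2 * θ) * N) := by ring
        _ ≤ 4 * 17 * L ^ b * (N ^ (2 * θ) * N) := by gcongr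
        _ ≤ L * L ^ b * (N ^ (2 * θ) * N) := by
            gcongr
            linarith
        _ = L ^ (b + 1) * (N : ℝ) ^ (1 + 2 * θ) := by
            rw [Real.rpow_add hN0, Real.rpow_one]
            ring
        _ ≤ (X : ℝ) ^ ε * (X : ℝ) ^ (1 - ε) := by gcongr
        _ = X := by
            rw [← Real.rpow_add hX0]
            norm_num
    rw [h2]
    have h4 : 2 * L ^ b * (17 ^ θ * ((N : ℝ) ^ (2 * θ))) * (2 * N) ≤ ((X / N : ℕ) : ℝ) * (2 * N) := by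
      refine h3.trans (h1.trans (le_of_eq (by ring)))
    exact le_of_mul_le_mul_right h4 (by positivity)
  · have hm : max X (N ^ 2) = X := max_eq_left hc
    have hle : N ≤ X / N := by
      rw [Nat.le_div_iff_mul_le (by omega)]
      nlinarith
    have hR : RR X N = N := min_eq_left hle
    rw [hm, hR]
    refine le_trans ?_ hN
    push_cast
    rw [Real.mul_rpow (by norm_num) hX0.le]
    calc 2 * L ^ b * (17 ^ θ * (X : ℝ) ^ θ) ≤ 2 * L ^ b * (17 * (X : ℝ) ^ θ) := by gcongr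
      _ = 34 * L ^ b * (X : ℝ) ^ θ := by ring
      _ ≤ L * L ^ b * (X : ℝ) ^ θ := by
          gcongr
          linarith
      _ = L ^ (b + 1) * (X : ℝ) ^ θ := by ring
      _ ≤ (X : ℝ) ^ ε * (X : ℝ) ^ θ := by gcongr
      _ = _ := by rw [← Real.rpow_add hX0, add_comm]

theorem mom3_core {θ : ℝ} (hθ0 : 0 < θ) (hθ1 : θ ≤ 1) (h : SIg θ) (U B : ℕ) (ε : ℝ) (hε : 0 < ε) :
    ∃ E₀ : ℕ, ∀ E₁ : ℕ, ∀ᶠ X : ℕ in atTop, ∀ z : ℕ, Real.log X ^ E₀ ≤ z → (z : ℝ) ≤ Real.log X ^ E₁ →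
    ∀ N : ℕ, (X : ℝ) ^ (θ + ε) ≤ N → (N : ℝ) ^ (1 + 2 * θ) ≤ (X : ℝ) ^ (1 - ε) →
    1 ≤ N ∧ N ≤ X ∧ ∀ H : ℕ, (H : ℝ) ≤ Real.log X ^ B → H ≤ RR X N ∧ (Real.log X ^ (U + 5) ≤ H →
    ∀ α : ℤ, α.natAbs = 1 → ∀ l t : ℕ → ℕ,
    (∀ i < nn X N, t i ≤ 17 * max X (N ^ 2)) → (∀ i < nn X N, t i - l i ≤ 14 * X) →
    (∀ u, ((range (nn X N)).filter (fun i => l i ≤ u ∧ u < t i)).card ≤ 14) →
    ∑ i ∈ range (nn X N), ∑' c : ℤ, ∑ r ∈ range (RR X N),
      (Wn (Dc z (l i) (t i)) α H c (((N + i * RR X N : ℕ) : ℤ) + r)) ^ 2 ≤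
      X * N * (H : ℝ) ^ 2 / Real.log X ^ U) := by
  obtain ⟨V, hV⟩ : ∃ V, V = 2 * U + 7 := ⟨_, rfl⟩
  obtain ⟨A', hA'⟩ : ∃ A', A' = V + B + 2 := ⟨_, rfl⟩
  obtain ⟨B2, hB2⟩ : ∃ B2, B2 = V + 3 := ⟨_, rfl⟩
  obtain ⟨E₀', h1⟩ := h A' (B + 1)
  refine ⟨E₀' + 1, fun E₁ => ?_⟩
  obtain ⟨X₀, h2⟩ := h1 E₁
  obtain ⟨N₀, hN₀⟩ := gt_abs E₁
  filter_upwards [eventually_ge_atTop X₀, eventually_ge_atTop N₀, evt_log_ge 10000, evt_log_ge (3 ^ E₀'),
    evt_log_pow (B2 + 1) ε hε, evt_log_pow (2 * B + 6) ε hε, evt_log_pow B θ hθ0, eventually_ge_atTop 17]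
    with X hX0 hXN hL hLE hpow1 hpow2 hpow3 hX17 z hz1 hz2 N hN hNX2
  set L := Real.log X with hLdef
  have hL0 : 0 < L := by linarith
  have hL1 : 1 ≤ L := by linarith
  have hp : ∀ n : ℕ, 0 < L ^ n := fun n => by positivity
  have hp1 : ∀ n : ℕ, 1 ≤ L ^ n := fun n => one_le_pow₀ hL1
  have hX17r : (17 : ℝ) ≤ X := by exact_mod_cast hX17
  have hXp : (0 : ℝ) < X := by linarith
  have hX1 : (1 : ℝ) ≤ X := by linarith
  have hN1r : (1 : ℝ) ≤ N := (Real.one_le_rpow hX1 (by positivity)).trans hN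
  have hN1 : 1 ≤ N := by exact_mod_cast hN1r
  have hN0 : (0 : ℝ) < N := by linarith
  have hNXr : (N : ℝ) ≤ X := by
    calc (N : ℝ) = (N : ℝ) ^ (1 : ℝ) := (Real.rpow_one _).symm
      _ ≤ (N : ℝ) ^ (1 + 2 * θ) := Real.rpow_le_rpow_of_exponent_le hN1r (by linarith)
      _ ≤ (X : ℝ) ^ (1 - ε) := hNX2
      _ ≤ (X : ℝ) ^ (1 : ℝ) := Real.rpow_le_rpow_of_exponent_le hX1 (by linarith)
      _ = X := Real.rpow_one _
  have hNX : N ≤ X := by exact_mod_cast hNXr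
  refine ⟨hN1, hNX, ?_⟩
  set Y := max X (N ^ 2) with hY
  have hXY : X ≤ Y := le_max_left _ _
  set Z := 17 * Y with hZ
  have hZ1 : X ≤ Z := by omega
  have hlogZ' : L ≤ Real.log (Z : ℝ) := Real.log_le_log hXp (by exact_mod_cast hZ1)
  have hlogZ : Real.log (Z : ℝ) ≤ 3 * L := by
    have hYX : Y ≤ X ^ 2 := by
      rw [hY]
      apply max_le
      · nlinarith
      · exact Nat.pow_le_pow_left hNX 2
    have h3 : (Z : ℝ) ≤ 17 * (X : ℝ) ^ 2 := by
      rw [hZ]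
      push_cast
      have : (Y : ℝ) ≤ (X : ℝ) ^ 2 := by exact_mod_cast hYX
      linarith
    have h4 : (0 : ℝ) < Z := by exact_mod_cast (by omega : 0 < Z)
    calc Real.log (Z : ℝ) ≤ Real.log (17 * (X : ℝ) ^ 2) := Real.log_le_log h4 h3
      _ = Real.log 17 + 2 * L := by
          rw [Real.log_mul (by norm_num) (by positivity), Real.log_pow]
          push_cast
          ring
      _ ≤ L + 2 * L := by
          gcongr
          exact Real.log_le_log (by norm_num) hX17r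
      _ = _ := by ring
  have hlogZ0 : 0 ≤ Real.log (Z : ℝ) := by linarith
  have hRR := RR_large hθ1 hL hN1 hNX hN hNX2 hpow1
  rw [← hY, ← hZ] at hRR
  have hZθ : (X : ℝ) ^ θ ≤ (Z : ℝ) ^ θ := Real.rpow_le_rpow hXp.le (by exact_mod_cast hZ1) hθ0.le
  have hXθ : (1 : ℝ) ≤ (X : ℝ) ^ θ := Real.one_le_rpow hX1 hθ0.le
  intro H hHB
  refine ⟨?_, ?_⟩
  · have h3 : (H : ℝ) ≤ RR X N := by
      calc (H : ℝ) ≤ L ^ B := hHB
        _ ≤ (X : ℝ) ^ θ := hpow3
        _ ≤ 1 * (Z : ℝ) ^ θ := by linarith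
        _ ≤ 2 * L ^ B2 * (Z : ℝ) ^ θ := by
            gcongr
            have := hp1 B2
            linarith
        _ ≤ _ := hRR
    exact_mod_cast h3
  intro hHU α hα l t ht1 ht2 ht3
  have hR1 := RR_pos hN1 hNX
  have hRmul := RR_mul X N
  obtain ⟨hnn1, hnn2⟩ := nn_mul hN1 hNX
  set R := RR X N with hR
  set n := nn X N with hn
  have hR0 : (0 : ℝ) < R := by exact_mod_cast hR1
  have hn1 : 1 ≤ n := by
    by_contra hcon
    push Not at hcon
    have : n = 0 := by omega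
    rw [this] at hnn1
    omega
  have hn0 : (0 : ℝ) < n := by exact_mod_cast hn1
  have hYn : Y ≤ n * X := by
    rw [hY]
    apply max_le
    · nlinarith
    · calc N ^ 2 = N * N := by ring
        _ ≤ (n * R) * N := Nat.mul_le_mul_right _ hnn1
        _ = n * (R * N) := by ring
        _ ≤ n * X := Nat.mul_le_mul_left _ hRmul
  have hNbig : L ^ (2 * B + 6) ≤ N := by
    refine hpow2.trans (le_trans ?_ hN)
    exact Real.rpow_le_rpow_of_exponent_le hX1 (by linarith)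
  have hRX : (R : ℝ) * L ^ (2 * B + 6) ≤ X := by
    calc (R : ℝ) * L ^ (2 * B + 6) ≤ R * N := by gcongr
      _ ≤ X := by exact_mod_cast hRmul
  set P := 3 * L with hP
  have hP0 : 0 ≤ P := by positivity
  have hz1' : 1 ≤ z := by exact_mod_cast (hp1 _).trans hz1
  have hb : ∀ m : ℤ, 1 ≤ m → m ≤ (Z : ℤ) → |gI z m| ≤ P := by
    intro m hm1 hm2
    unfold gI
    rw [if_pos hm1]
    exact le_trans (hN₀ Z (by omega) z hz1' (hz2.trans (pow_le_pow_left₀ hL0.le hlogZ' _)) m.toNat (by omega)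
        (by omega)) hlogZ
  -- the parameter `w`
  set w := ⌊(R : ℝ) / L ^ B2⌋₊ with hw
  have hwle : (w : ℝ) ≤ R / L ^ B2 := Nat.floor_le (by positivity)
  have hRB : 2 * (Z : ℝ) ^ θ ≤ (R : ℝ) / L ^ B2 := by
    rw [le_div_iff₀ (hp _)]
    linarith
  have hwge : (Z : ℝ) ^ θ ≤ w := by
    have h3 : (R : ℝ) / L ^ B2 < w + 1 := Nat.lt_floor_add_one _
    linarith
  have hw0 : (0 : ℝ) < w := by linarith
  have hw1 : 1 ≤ w := by exact_mod_cast (by linarith : (1 : ℝ) ≤ w)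
  have hw3 : w ≤ R := by
    have : (w : ℝ) ≤ R := hwle.trans (div_le_self hR0.le (hp1 _))
    exact_mod_cast this
  set E := (n : ℝ) * (14 * X * (3 * L) ^ 2) with hE
  set S := (R : ℝ) ^ 2 * (n * X) / L ^ V with hS
  have hS0 : 0 ≤ S := by positivity
  have hEsum : ∑ i ∈ range n, E2 (Dc z (l i) (t i)) ≤ E := by
    calc ∑ i ∈ range n, E2 (Dc z (l i) (t i)) ≤ ∑ i ∈ range n, (14 * X * P ^ 2) := by
          refine sum_le_sum fun i hi => ?_
          rw [mem_range] at hi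
          refine (E2_Dc hP0 (fun m hm1 hm2 => hb m hm1 (hm2.trans (by exact_mod_cast ht1 i hi)))).trans ?_
          have h3 : ((t i - l i : ℕ) : ℝ) ≤ ((14 * X : ℕ) : ℝ) := by exact_mod_cast ht2 i hi
          push_cast at h3
          gcongr
      _ = _ := by rw [sum_const, card_range, nsmul_eq_mul]
  have hSsum : ∀ q : ℕ, 1 ≤ q → q ≤ 2 * α.natAbs * H → ∑ i ∈ range n, E2 (Sq (Dc z (l i) (t i)) q R) ≤ S := by
    intro q hq1 hq2
    have hqL : (q : ℝ) ≤ L ^ (B + 1) := by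
      have h3 : (q : ℝ) ≤ 2 * H := by
        rw [hα] at hq2
        exact_mod_cast (by omega : q ≤ 2 * H)
      calc (q : ℝ) ≤ 2 * H := h3
        _ ≤ 2 * L ^ B := by gcongr
        _ ≤ L * L ^ B := by gcongr; linarith
        _ = _ := by ring
    have hq0 : (0 : ℝ) < q := by exact_mod_cast hq1
    have k1 := blk_S (z := z) hP0 n 14 Z (14 * X) l t hb ht1 ht2 ht3 q w R hq1 hw1
    have k2 := h2 Z (by omega) z (by
      calc Real.log (Z : ℝ) ^ E₀' ≤ (3 * L) ^ E₀' := pow_le_pow_left₀ hlogZ0 hlogZ _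
        _ = 3 ^ E₀' * L ^ E₀' := by rw [mul_pow]
        _ ≤ L * L ^ E₀' := by gcongr
        _ = L ^ (E₀' + 1) := by ring
        _ ≤ z := hz1) (hz2.trans (pow_le_pow_left₀ hL0.le hlogZ' _)) q hq1
      (hqL.trans (pow_le_pow_left₀ hL0.le hlogZ' _)) (q * w) (by
        push_cast
        have : (1 : ℝ) ≤ q := by exact_mod_cast hq1
        nlinarith) (by
        have h3 : ((q * w : ℕ) : ℝ) ≤ Z := by
          push_cast
          have h4 : (X : ℝ) ≤ Z := by exact_mod_cast hZ1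
          have h5 : (w : ℝ) ≤ R := by exact_mod_cast hw3
          calc (q : ℝ) * w ≤ L ^ (B + 1) * R := by gcongr
            _ ≤ L ^ (2 * B + 6) * R := by
                refine mul_le_mul_of_nonneg_right ?_ hR0.le
                exact pow_le_pow_right₀ hL1 (by omega)
            _ ≤ X := by linarith
            _ ≤ Z := h4
        exact_mod_cast h3)
    have k3 : ∑ u ∈ range Z, NN (gI z) (u : ℤ) (q * w) q ≤ Z * ((q : ℝ) * w) ^ 2 / L ^ A' := by
      refine k2.trans ?_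
      push_cast
      gcongr
    have hZr : (Z : ℝ) ≤ 17 * (n * X) := by
      rw [hZ]
      push_cast
      have : (Y : ℝ) ≤ n * X := by exact_mod_cast hYn
      linarith
    refine k1.trans ?_
    have k4 := num_S L X R n w q Z
      (16 * (R : ℝ) ^ 2 / ((q : ℝ) * w) ^ 2 * (q * (14 * ∑ u ∈ range Z, NN (gI z) (u : ℤ) (q * w) q +
        n * (2 * ((q : ℝ) * w) * (((q : ℝ) * w) * P) ^ 2))) + 8 * (w : ℝ) ^ 2 * (n * (14 * X * P ^ 2)))
      (∑ u ∈ range Z, NN (gI z) (u : ℤ) (q * w) q) P B B2 V A' hL hXp hR0 hn0 hw0 hwle hq0 hqL (Nat.cast_nonneg _)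
      hZr hP k3 hA' hB2 hRX rfl
    refine le_trans (le_of_eq ?_) k4
    push_cast
    ring
  have k5 := blocks (range n) (fun i => Dc z (l i) (t i)) (fun i => Dc_fs z (l i) (t i)) α
    (fun i => ((N + i * R : ℕ) : ℤ)) R H E S hEsum hSsum (by intro h0; rw [h0] at hα; simp at hα)
  refine k5.trans ?_
  exact num_fin L X R n N H E S U hL hXp hR0 hn0 (by exact_mod_cast hnn2) hHU hE hS0 (by rw [hS, hV])

/-- **the second moment of the sums over short windows** -/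
theorem mom3 {θ : ℝ} (hθ0 : 0 < θ) (hθ1 : θ ≤ 1) (h : SIg θ) (U B : ℕ) (ε : ℝ) (hε : 0 < ε) :
    ∃ E₀ : ℕ, ∀ E₁ : ℕ, ∀ᶠ X : ℕ in atTop, ∀ z : ℕ, Real.log X ^ E₀ ≤ z → (z : ℝ) ≤ Real.log X ^ E₁ →
    ∀ N : ℕ, (X : ℝ) ^ (θ + ε) ≤ N → (N : ℝ) ^ (1 + 2 * θ) ≤ (X : ℝ) ^ (1 - ε) →
    ∀ H : ℕ, Real.log X ^ (U + 5) ≤ H → (H : ℝ) ≤ Real.log X ^ B → ∀ α : ℤ, (α = 1 ∨ α = -1) →
    ∑ c ∈ Icc (-(X : ℤ)) X, ∑ M ∈ Ico N (2 * N), (Wn (gI z) α H c (M : ℤ)) ^ 2 ≤
      X * N * (H : ℝ) ^ 2 / Real.log X ^ U := by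
  obtain ⟨E₀, h1⟩ := mom3_core hθ0 hθ1 h U B ε hε
  refine ⟨E₀, fun E₁ => ?_⟩
  filter_upwards [h1 E₁, eventually_ge_atTop 1] with X hcore hX1 z hz1 hz2 N hN hNX2 H hHU hHB α hα
  obtain ⟨hN1, hNX, hrest⟩ := hcore z hz1 hz2 N hN hNX2
  obtain ⟨hHR, hrest⟩ := hrest H hHB
  have hRHS : 0 ≤ (X : ℝ) * N * (H : ℝ) ^ 2 / Real.log X ^ U := by
    have : 0 ≤ Real.log X := Real.log_natCast_nonneg X
    positivity
  -- the general reduction
  have hred : ∀ (l t : ℕ → ℕ), (∀ i < nn X N, ∀ r < RR X N, ∀ c ∈ Icc (-(X : ℤ)) X, ∀ j ∈ Icc (1 : ℤ) H,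
      gI z (c + α * (((N + i * RR X N : ℕ) : ℤ) + r + j) ^ 2) =
        Dc z (l i) (t i) (c + α * (((N + i * RR X N : ℕ) : ℤ) + r + j) ^ 2)) →
      ∑ c ∈ Icc (-(X : ℤ)) X, ∑ M ∈ Ico N (2 * N), (Wn (gI z) α H c (M : ℤ)) ^ 2 ≤
      ∑ i ∈ range (nn X N), ∑' c : ℤ, ∑ r ∈ range (RR X N),
      (Wn (Dc z (l i) (t i)) α H c (((N + i * RR X N : ℕ) : ℤ) + r)) ^ 2 := by
    intro l t hval
    have e1 : ∀ c ∈ Icc (-(X : ℤ)) X, ∑ M ∈ Ico N (2 * N), (Wn (gI z) α H c (M : ℤ)) ^ 2 ≤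
        ∑ i ∈ range (nn X N), ∑ r ∈ range (RR X N),
        (Wn (Dc z (l i) (t i)) α H c (((N + i * RR X N : ℕ) : ℤ) + r)) ^ 2 := by
      intro c hc
      refine (sum_blocks hN1 hNX (fun m => (Wn (gI z) α H c m) ^ 2) (fun m => sq_nonneg _)).trans (le_of_eq ?_)
      refine sum_congr rfl fun i hi => sum_congr rfl fun r hr => ?_
      rw [mem_range] at hi hr
      congr 1
      unfold Wn
      refine sum_congr rfl fun j hj => ?_
      exact hval i hi r hr c hc j hj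
    refine (sum_le_sum e1).trans ?_
    rw [sum_comm]
    refine sum_le_sum fun i _ => ?_
    apply Summable.sum_le_tsum
    · intro c _
      exact sum_nonneg fun _ _ => sq_nonneg _
    · refine (Fs.sum _ (fun (r : ℕ) c => (Wn (Dc z (l i) (t i)) α H c (((N + i * RR X N : ℕ) : ℤ) + r)) ^ 2)
        fun r _ => ?_).summable
      exact (Fs.sum _ (fun j c => Dc z (l i) (t i) (c + α * ((((N + i * RR X N : ℕ) : ℤ) + r) + j) ^ 2))
        fun j _ => (Dc_fs z (l i) (t i)).shift _).sq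
  rcases hα with rfl | rfl
  · refine (hred (lo X N) (hi X N) fun i hi' r hr c hc j hj => val_pos hN1 hNX hHR hi' hr hc hj).trans ?_
    exact hrest hHU 1 (by simp) (lo X N) (hi X N) (fun i hi' => hi_le hN1 hNX hi') (fun i _ => hi_sub_lo X N i)
      (mult hN1 hNX)
  · rcases Nat.lt_or_ge X (N ^ 2) with hc' | hc'
    · refine le_trans (le_of_eq ?_) hRHS
      refine sum_eq_zero fun c hc => sum_eq_zero fun M hM => ?_
      rw [mem_Icc] at hc
      rw [mem_Ico] at hM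
      have : Wn (gI z) (-1) H c (M : ℤ) = 0 := by
        unfold Wn
        refine sum_eq_zero fun j hj => ?_
        rw [mem_Icc] at hj
        unfold gI
        rw [if_neg]
        have h2 : (N : ℤ) ^ 2 ≤ ((M : ℤ) + j) ^ 2 := by
          apply pow_le_pow_left₀ (by positivity)
          have : (N : ℤ) ≤ M := by exact_mod_cast hM.1
          omega
        have h3 : (X : ℤ) < (N : ℤ) ^ 2 := by exact_mod_cast hc'
        linarith [hc.2]
      rw [this]
      norm_num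
    · have hle : N ≤ X / N := by
        rw [Nat.le_div_iff_mul_le (by omega)]
        nlinarith
      have hR : RR X N = N := min_eq_left hle
      have hn : nn X N = 1 := by
        unfold nn
        rw [hR]
        have : N + N - 1 = (N - 1) + N := by omega
        rw [this, Nat.add_div_right _ (by omega), Nat.div_eq_of_lt (by omega)]
      refine (hred (fun _ => 0) (fun _ => X) fun i hi' r hr c hc j hj => ?_).trans ?_
      · rw [mem_Icc] at hc
        unfold Dc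
        by_cases hm : 1 ≤ c + -1 * (((N + i * RR X N : ℕ) : ℤ) + r + j) ^ 2
        · rw [if_pos]
          constructor
          · rw [Nat.cast_zero]
            omega
          · have := sq_nonneg ((((N + i * RR X N : ℕ) : ℤ) + r + j))
            linarith [hc.2]
        · have e : gI z (c + -1 * (((N + i * RR X N : ℕ) : ℤ) + r + j) ^ 2) = 0 := by
            unfold gI
            rw [if_neg hm]
          rw [e]
          split_ifs <;> rfl
      · apply hrest hHU (-1) (by simp) (fun _ => 0) (fun _ => X)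
        · intro i _
          have := le_max_left X (N ^ 2)
          omega
        · intro i _
          omega
        · intro u
          refine (card_filter_le _ _).trans ?_
          rw [card_range, hn]
          norm_num

end Pool.Agent.H43.SW
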