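import Pool.Agent.H43.SL.Corr

/-!
The second moment over constant terms and positions of the sums over short windows.
-/

set_option autoImplicit false

namespace Pool.Agent.H43.SW

open Finset
open Pool.Agent.H43.SL
open Pool.Agent.helper24_UT (NN)

/-- the sum over the window `(M, M + H]` -/
noncomputable def Wn (D : ℤ → ℝ) (α : ℤ) (H : ℕ) (c M : ℤ) : ℝ := ∑ j ∈ Icc (1 : ℤ) H, D (c + α * (M + j) ^ 2)

/-- pairs in a window -/
noncomputable def Prs (H : ℕ) : Finset (ℤ × ℤ) := Icc (1 : ℤ) H ×ˢ Icc (1 : ℤ) H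

theorem corr2 {D : ℤ → ℝ} (h : Fs D) (α M₀ : ℤ) (R H : ℕ) :
    ∑' c : ℤ, ∑ r ∈ range R, (Wn D α H c (M₀ + r)) ^ 2 ≤
      ∑ p ∈ Prs H, Real.sqrt (E2 D) * Real.sqrt (E2 (Sq D (2 * α * (p.2 - p.1)).natAbs R)) := by
  have h1 : ∀ c : ℤ, ∑ r ∈ range R, (Wn D α H c (M₀ + r)) ^ 2 = ∑ p ∈ Prs H, ∑ r ∈ range R,
      D (c + α * (M₀ + r + p.1) ^ 2) * D (c + α * (M₀ + r + p.2) ^ 2) := by
    intro c
    rw [sum_comm]
    refine sum_congr rfl fun r _ => ?_
    unfold Wn Prs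
    rw [sq, sum_mul_sum, ← sum_product']
  simp_rw [h1]
  have hfs : ∀ a b : ℤ, Fs (fun c => D (c + a) * D (c + b)) := fun a b => (h.shift a).mul _
  rw [Summable.tsum_finsetSum (fun p _ => (Fs.sum _ (fun (r : ℕ) c => D (c + α * (M₀ + r + p.1) ^ 2) *
    D (c + α * (M₀ + r + p.2) ^ 2)) fun r _ => hfs _ _).summable)]
  refine sum_le_sum fun p _ => ?_
  rw [Summable.tsum_finsetSum (fun r _ => (hfs _ _).summable)]
  have h3 : ∀ r ∈ range R, ∑' c : ℤ, D (c + α * (M₀ + r + p.1) ^ 2) * D (c + α * (M₀ + r + p.2) ^ 2) =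
      ∑' m : ℤ, D m * D (m + (α * (p.2 - p.1) * (2 * M₀ + p.1 + p.2) + (2 * α * (p.2 - p.1)) * r)) := by
    intro r _
    rw [← (Equiv.addRight (α * (M₀ + r + p.1) ^ 2)).tsum_eq
      (fun m => D m * D (m + (α * (p.2 - p.1) * (2 * M₀ + p.1 + p.2) + (2 * α * (p.2 - p.1)) * r)))]
    refine tsum_congr fun c => ?_
    rw [Equiv.coe_addRight]
    congr 2
    ring
  rw [sum_congr rfl h3, ← Summable.tsum_finsetSum (fun r _ => (h.mul _).summable)]
  simp_rw [← mul_sum]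
  refine (le_abs_self _).trans ((cs h ?_).trans ?_)
  · exact Fs.sum _ (fun (r : ℕ) m => D (m + (α * (p.2 - p.1) * (2 * M₀ + p.1 + p.2) + (2 * α * (p.2 - p.1)) * r)))
      fun r _ => h.shift _
  · rw [E2_prog]

/-- several blocks -/
theorem blocks {ι : Type*} (I : Finset ι) (D : ι → ℤ → ℝ) (h : ∀ i, Fs (D i)) (α : ℤ) (M₀ : ι → ℤ) (R H : ℕ)
    (E S : ℝ) (hE : ∑ i ∈ I, E2 (D i) ≤ E)
    (hS : ∀ q : ℕ, 1 ≤ q → q ≤ 2 * α.natAbs * H → ∑ i ∈ I, E2 (Sq (D i) q R) ≤ S) (hα : α ≠ 0) :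
    ∑ i ∈ I, ∑' c : ℤ, ∑ r ∈ range R, (Wn (D i) α H c (M₀ i + r)) ^ 2 ≤
      R * H * E + (H : ℝ) ^ 2 * (Real.sqrt E * Real.sqrt S) := by
  have hE0 : 0 ≤ E := le_trans (sum_nonneg fun i _ => E2_nonneg _) hE
  have h1 : ∑ i ∈ I, ∑' c : ℤ, ∑ r ∈ range R, (Wn (D i) α H c (M₀ i + r)) ^ 2 ≤
      ∑ p ∈ Prs H, ∑ i ∈ I, Real.sqrt (E2 (D i)) * Real.sqrt (E2 (Sq (D i) (2 * α * (p.2 - p.1)).natAbs R)) := by
    rw [sum_comm]
    exact sum_le_sum fun i _ => corr2 (h i) α (M₀ i) R H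
  refine h1.trans ?_
  have h2 : ∀ p ∈ Prs H, ∑ i ∈ I, Real.sqrt (E2 (D i)) * Real.sqrt (E2 (Sq (D i) (2 * α * (p.2 - p.1)).natAbs R)) ≤
      if p.2 = p.1 then R * E else Real.sqrt E * Real.sqrt S := by
    intro p hp
    refine (Real.sum_sqrt_mul_sqrt_le I (fun i => E2_nonneg _) (fun i => E2_nonneg _)).trans ?_
    split_ifs with hpp
    · have h3 : ∑ i ∈ I, E2 (Sq (D i) (2 * α * (p.2 - p.1)).natAbs R) ≤ (R : ℝ) ^ 2 * E := by
        calc ∑ i ∈ I, E2 (Sq (D i) (2 * α * (p.2 - p.1)).natAbs R) ≤ ∑ i ∈ I, (R : ℝ) ^ 2 * E2 (D i) :=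
              sum_le_sum fun i _ => E2_Sq_triv (h i) _ _
          _ = (R : ℝ) ^ 2 * ∑ i ∈ I, E2 (D i) := by rw [mul_sum]
          _ ≤ _ := by gcongr
      calc Real.sqrt (∑ i ∈ I, E2 (D i)) * Real.sqrt (∑ i ∈ I, E2 (Sq (D i) (2 * α * (p.2 - p.1)).natAbs R)) ≤
            Real.sqrt E * Real.sqrt ((R : ℝ) ^ 2 * E) := by gcongr
        _ = R * (Real.sqrt E * Real.sqrt E) := by
            rw [Real.sqrt_mul (by positivity), Real.sqrt_sq (Nat.cast_nonneg _)]
            ring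
        _ = R * E := by rw [Real.mul_self_sqrt hE0]
    · have hq1 : 1 ≤ (2 * α * (p.2 - p.1)).natAbs := by
        rw [Nat.one_le_iff_ne_zero, Int.natAbs_ne_zero]
        have : p.2 - p.1 ≠ 0 := sub_ne_zero.2 hpp
        positivity
      have hq2 : (2 * α * (p.2 - p.1)).natAbs ≤ 2 * α.natAbs * H := by
        rw [Int.natAbs_mul, Int.natAbs_mul]
        apply Nat.mul_le_mul
        · exact le_of_eq (by simp)
        · unfold Prs at hp
          simp only [mem_product, mem_Icc] at hp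
          omega
      gcongr
      exact hS _ hq1 hq2
  refine (sum_le_sum h2).trans ?_
  rw [sum_ite]
  refine add_le_add ?_ ?_
  · rw [sum_const, nsmul_eq_mul]
    have h4 : (((Prs H).filter (fun p => p.2 = p.1)).card : ℝ) ≤ H := by
      have h5 : ((Prs H).filter (fun p => p.2 = p.1)).card ≤ (Icc (1 : ℤ) H).card := by
        apply card_le_card_of_injOn (fun p => p.1)
        · intro p hp
          have h6 := (mem_filter.1 hp).1
          unfold Prs at h6
          exact (mem_product.1 h6).1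
        · intro p hp p' hp' hpp'
          have e1 := (mem_filter.1 hp).2
          have e2 := (mem_filter.1 hp').2
          simp only at hpp'
          ext
          · exact hpp'
          · rw [e1, e2]; exact hpp'
      rw [Int.card_Icc] at h5
      have h6 : ((H : ℤ) + 1 - 1).toNat = H := by omega
      rw [h6] at h5
      exact_mod_cast h5
    calc (((Prs H).filter (fun p => p.2 = p.1)).card : ℝ) * (R * E) ≤ H * (R * E) := by gcongr
      _ = _ := by ring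
  · rw [sum_const, nsmul_eq_mul]
    have h4 : (((Prs H).filter (fun p => ¬ p.2 = p.1)).card : ℝ) ≤ (H : ℝ) ^ 2 := by
      have h5 := card_filter_le (Prs H) (fun p => ¬ p.2 = p.1)
      have h6 : (Prs H).card = H * H := by
        unfold Prs
        rw [card_product, Int.card_Icc]
        have h7 : ((H : ℤ) + 1 - 1).toNat = H := by omega
        rw [h7]
      rw [h6] at h5
      have h7 : (((Prs H).filter (fun p => ¬ p.2 = p.1)).card : ℝ) ≤ ((H * H : ℕ) : ℝ) := by exact_mod_cast h5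
      refine h7.trans (le_of_eq ?_)
      push_cast; ring
    gcongr

end Pool.Agent.H43.SW
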