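import Pool.Agent.H43.G.R_pool_sql_team_seeded_f72693b1.W81.R1.Model

/-!
The sieve model in almost all short windows, for one polynomial.
-/

set_option autoImplicit false

namespace Pool.Agent.H43.SW

open Finset Filter Polynomial
open Pool.Agent.H442R2.EHI (evt_log_pow evt_log_ge)
open Pool.Agent.H300R2.BH (rho SS)
open Pool.Agent.H373R2.T7 (lamz Vz pz mem_pz Vz_pos Vz_inv_small sys_count PerB nuB count_sys)
open Pool.Agent.W81.R1 (PP card_inst nuB_rho)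

lemma eval_mod (F : ℤ[X]) (p : ℕ) (n m : ℤ) (h : (p : ℤ) ∣ n - m) :
    (p : ℤ) ∣ F.eval n ↔ (p : ℤ) ∣ F.eval m := by
  have h2 : (p : ℤ) ∣ F.eval n - F.eval m := h.trans (Polynomial.sub_dvd_eval_sub _ _ _)
  constructor
  · intro h3
    have := dvd_sub h3 h2
    simpa using this
  · intro h3
    have := dvd_add h2 h3
    simpa using this

/-- shifts of periodic conditions -/
lemma card_shift (C : ℤ → Prop) [DecidablePred C] (p : ℕ) (hp : 1 ≤ p)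
    (hC : ∀ n m : ℤ, (p : ℤ) ∣ n - m → (C n ↔ C m)) (c : ℤ) :
    ((range p).filter (fun x : ℕ => C ((x : ℤ) + c))).card = ((range p).filter (fun x : ℕ => C (x : ℤ))).card := by
  have hp0 : (0 : ℤ) < p := by exact_mod_cast hp
  have key : ∀ d : ℤ, ∀ x : ℕ, ((((x : ℤ) + d) % p).toNat : ℤ) = ((x : ℤ) + d) % p := fun d x =>
    Int.toNat_of_nonneg (Int.emod_nonneg _ hp0.ne')
  have hdvd : ∀ n : ℤ, (p : ℤ) ∣ n % p - n := fun n => by
    have h1 := Int.emod_add_mul_ediv n p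
    exact ⟨-(n / p), by linarith⟩
  refine card_nbij' (fun x : ℕ => (((x : ℤ) + c) % p).toNat) (fun x : ℕ => (((x : ℤ) + -c) % p).toNat) ?_ ?_ ?_ ?_
  · intro x hx
    simp only [coe_filter, mem_range, Set.mem_ofPred_eq] at hx ⊢
    have h1 := Int.emod_lt_of_pos ((x : ℤ) + c) hp0
    have h2 := key c x
    refine ⟨by omega, ?_⟩
    rw [h2]
    exact (hC _ _ (hdvd _)).2 hx.2
  · intro x hx
    simp only [coe_filter, mem_range, Set.mem_ofPred_eq] at hx ⊢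
    have h1 := Int.emod_lt_of_pos ((x : ℤ) + -c) hp0
    have h2 := key (-c) x
    refine ⟨by omega, ?_⟩
    rw [h2]
    refine (hC _ _ ?_).2 hx.2
    have h3 := hdvd ((x : ℤ) + -c)
    have e : ((x : ℤ) + -c) % p + c - x = ((x : ℤ) + -c) % p - ((x : ℤ) + -c) := by ring
    rw [e]
    exact h3
  · intro x hx
    simp only [coe_filter, mem_range, Set.mem_ofPred_eq] at hx ⊢
    have h2 := key c x
    rw [h2]
    have e : (((x : ℤ) + c) % p + -c) % p = x := by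
      rw [Int.emod_add_emod, add_neg_cancel_right]
      exact Int.emod_eq_of_lt (by omega) (by exact_mod_cast hx.1)
    omega
  · intro x hx
    simp only [coe_filter, mem_range, Set.mem_ofPred_eq] at hx ⊢
    have h2 := key (-c) x
    rw [h2]
    have e : (((x : ℤ) + -c) % p + c) % p = x := by
      rw [Int.emod_add_emod, neg_add_cancel_right]
      exact Int.emod_eq_of_lt (by omega) (by exact_mod_cast hx.1)
    omega

/-- pairs of roots -/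
noncomputable def nu (F : ℤ[X]) (p : ℕ) (k : ℤ) : ℕ :=
  ((range p).filter (fun x : ℕ => (p : ℤ) ∣ F.eval (x : ℤ) ∧ (p : ℤ) ∣ F.eval ((x : ℤ) + k))).card

lemma rho_eq (F : ℤ[X]) (p : ℕ) : ((range p).filter (fun k : ℕ => (p : ℤ) ∣ F.eval (k : ℤ))).card = rho F p := by
  unfold rho
  exact card_inst _ _ _ _

lemma card_pi_shift (F : ℤ[X]) (S : Finset ℕ) (hS : ∀ p ∈ S, p.Prime) (y : ℕ → ℤ) (H : ℕ) (j : ℤ) :
    |(((Icc 1 H).filter (fun n : ℕ => ∀ p ∈ S, (p : ℤ) ∣ F.eval (y p + ((n : ℤ) - j)))).card : ℝ) -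
      H * ∏ p ∈ S, ((rho F p : ℝ) / p)| ≤ ∏ p ∈ S, (rho F p : ℝ) := by
  classical
  have h1 := count_sys (fun p a => (p : ℤ) ∣ F.eval (y p + ((a : ℤ) - j))) H S hS 1 le_rfl
    (fun p hp hd => (hS p hp).one_lt.ne' (Nat.dvd_one.1 hd)) 0
  have h2 : ∀ p ∈ S, ((range p).filter (fun a : ℕ => (p : ℤ) ∣ F.eval (y p + ((a : ℤ) - j)))).card = rho F p := by
    intro p hp
    rw [← rho_eq]
    have h3 := card_shift (fun n => (p : ℤ) ∣ F.eval n) p (hS p hp).one_lt.le (fun n m h => eval_mod F p n m h) (y p - j)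
    rw [← h3]
    congr 1
    apply filter_congr
    intro a _
    have : y p + ((a : ℤ) - j) = (a : ℤ) + (y p - j) := by ring
    rw [this]
  have h3 : (Icc 1 H).filter (fun n => n ≡ 0 [MOD 1] ∧ ∀ p ∈ S, (p : ℤ) ∣ F.eval (y p + (((n % p : ℕ) : ℤ) - j))) =
      (Icc 1 H).filter (fun n : ℕ => ∀ p ∈ S, (p : ℤ) ∣ F.eval (y p + ((n : ℤ) - j))) := by
    apply filter_congr
    intro n _
    have hmod : ∀ p : ℕ, (p : ℤ) ∣ (y p + (((n % p : ℕ) : ℤ) - j)) - (y p + ((n : ℤ) - j)) := by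
      intro p
      have h4 := Nat.div_add_mod n p
      refine ⟨-((n / p : ℕ) : ℤ), ?_⟩
      have h5 : ((p * (n / p) + n % p : ℕ) : ℤ) = (n : ℤ) := by rw [h4]
      push_cast at h5 ⊢
      linarith
    constructor
    · rintro ⟨_, h⟩ p hp
      exact (eval_mod F p _ _ (hmod p)).1 (h p hp)
    · intro h
      exact ⟨Nat.modEq_one, fun p hp => (eval_mod F p _ _ (hmod p)).2 (h p hp)⟩
  rw [h3] at h1
  have h4 : ∏ p ∈ S, ((((range p).filter (fun a : ℕ => (p : ℤ) ∣ F.eval (y p + ((a : ℤ) - j)))).card : ℝ) / p) =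
      ∏ p ∈ S, ((rho F p : ℝ) / p) := prod_congr rfl fun p hp => by rw [h2 p hp]
  have h5 : ∏ p ∈ S, ((((range p).filter (fun a : ℕ => (p : ℤ) ∣ F.eval (y p + ((a : ℤ) - j)))).card : ℝ)) =
      ∏ p ∈ S, (rho F p : ℝ) := prod_congr rfl fun p hp => by rw [h2 p hp]
  rw [h4, h5, Nat.cast_one, div_one] at h1
  exact h1

/-- the mean of the pairs of roots over a window -/
lemma nu_window (F : ℤ[X]) (S : Finset ℕ) (hS : ∀ p ∈ S, p.Prime) (H : ℕ) (j : ℤ) :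
    |∑ n ∈ Icc 1 H, ∏ p ∈ S, (nu F p ((n : ℤ) - j) : ℝ) - H * ∏ p ∈ S, ((rho F p : ℝ) * (rho F p / p))| ≤
      ∏ p ∈ S, ((rho F p : ℝ) * rho F p) := by
  classical
  set R : ℕ → Finset ℕ := fun p => (range p).filter (fun k : ℕ => (p : ℤ) ∣ F.eval (k : ℤ)) with hR
  have hRc : ∀ p, (R p).card = rho F p := rho_eq F
  -- extension of the choices to functions
  set ext : ((p : ℕ) → p ∈ S → ℕ) → ℕ → ℤ := fun y p => if h : p ∈ S then (y p h : ℤ) else 0 with hext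
  have h1 : ∀ n : ℕ, ∏ p ∈ S, (nu F p ((n : ℤ) - j) : ℝ) = ∑ y ∈ S.pi R,
      (if ∀ p ∈ S, (p : ℤ) ∣ F.eval (ext y p + ((n : ℤ) - j)) then (1 : ℝ) else 0) := by
    intro n
    have h2 : ∀ p ∈ S, (nu F p ((n : ℤ) - j) : ℝ) = ∑ x ∈ R p, (if (p : ℤ) ∣ F.eval ((x : ℤ) + ((n : ℤ) - j)) then (1 : ℝ) else 0) := by
      intro p _
      unfold nu
      rw [← sum_filter, sum_const, nsmul_eq_mul, mul_one, hR]
      simp only
      rw [filter_filter]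
    rw [prod_congr rfl h2, prod_sum]
    refine sum_congr rfl fun y hy => ?_
    have h3 : ∀ x : {x // x ∈ S}, (if (x.1 : ℤ) ∣ F.eval ((y x.1 x.2 : ℤ) + ((n : ℤ) - j)) then (1 : ℝ) else 0) =
        (fun p : ℕ => if (p : ℤ) ∣ F.eval (ext y p + ((n : ℤ) - j)) then (1 : ℝ) else 0) x.1 := by
      intro x
      simp only [hext]
      rw [dif_pos x.2]
    rw [prod_congr rfl fun x _ => h3 x, prod_attach S (fun p : ℕ => if (p : ℤ) ∣ F.eval (ext y p + ((n : ℤ) - j)) then (1 : ℝ) else 0)]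
    by_cases hall : ∀ p ∈ S, (p : ℤ) ∣ F.eval (ext y p + ((n : ℤ) - j))
    · rw [if_pos hall]
      exact prod_eq_one fun p hp => if_pos (hall p hp)
    · rw [if_neg hall]
      push Not at hall
      obtain ⟨p, hp, hpd⟩ := hall
      exact prod_eq_zero hp (if_neg hpd)
  simp_rw [h1]
  rw [sum_comm]
  have h2 : ∀ y ∈ S.pi R, ∑ n ∈ Icc 1 H, (if ∀ p ∈ S, (p : ℤ) ∣ F.eval (ext y p + ((n : ℤ) - j)) then (1 : ℝ) else 0) =
      (((Icc 1 H).filter (fun n : ℕ => ∀ p ∈ S, (p : ℤ) ∣ F.eval (ext y p + ((n : ℤ) - j)))).card : ℝ) := by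
    intro y _
    rw [← sum_filter, sum_const, nsmul_eq_mul, mul_one]
  rw [sum_congr rfl h2]
  have hcard : ((S.pi R).card : ℝ) = ∏ p ∈ S, (rho F p : ℝ) := by
    rw [card_pi]
    push_cast
    exact prod_congr rfl fun p _ => by rw [hRc p]
  have h3 : (H : ℝ) * ∏ p ∈ S, ((rho F p : ℝ) * (rho F p / p)) = ∑ y ∈ S.pi R, (H * ∏ p ∈ S, ((rho F p : ℝ) / p)) := by
    rw [sum_const, nsmul_eq_mul, hcard, prod_mul_distrib]
    ring
  rw [h3, ← sum_sub_distrib]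
  refine (abs_sum_le_sum_abs _ _).trans ((sum_le_sum fun y _ => card_pi_shift F S hS (ext y) H j).trans (le_of_eq ?_))
  rw [sum_const, nsmul_eq_mul, hcard, prod_mul_distrib]

/-- the pairs -/
theorem pair_sum (F : ℤ[X]) (P : Finset ℕ) (hP : ∀ p ∈ P, p.Prime) (a : ℕ → ℝ) (ha : ∀ p ∈ P, |a p| ≤ 1) (H : ℕ) :
    ∑ j ∈ Icc 1 H, ∑ n ∈ Icc 1 H, ∏ p ∈ P, (a p + (nu F p ((n : ℤ) - (j : ℤ)) : ℝ) / p) ≤
      (H : ℝ) ^ 2 * ∏ p ∈ P, (a p + ((rho F p : ℝ) / p) ^ 2) + H * ∏ p ∈ P, (1 + (rho F p : ℝ) ^ 2 / p) := by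
  classical
  have hp0 : ∀ p ∈ P, (0 : ℝ) < p := fun p hp => by exact_mod_cast (hP p hp).pos
  have h1 : ∀ j ∈ Icc 1 H, ∑ n ∈ Icc 1 H, ∏ p ∈ P, (a p + (nu F p ((n : ℤ) - (j : ℤ)) : ℝ) / p) ≤
      H * ∏ p ∈ P, (a p + ((rho F p : ℝ) / p) ^ 2) + ∏ p ∈ P, (1 + (rho F p : ℝ) ^ 2 / p) := by
    intro j _
    have e1 : ∀ n ∈ Icc 1 H, ∏ p ∈ P, (a p + (nu F p ((n : ℤ) - (j : ℤ)) : ℝ) / p) =
        ∑ t ∈ P.powerset, (∏ p ∈ t, ((nu F p ((n : ℤ) - (j : ℤ)) : ℝ) / p)) * ∏ p ∈ P \ t, a p := by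
      intro n _
      rw [← prod_add]
      exact prod_congr rfl fun p _ => add_comm _ _
    rw [sum_congr rfl e1, sum_comm]
    have e2 : ∏ p ∈ P, (a p + ((rho F p : ℝ) / p) ^ 2) =
        ∑ t ∈ P.powerset, (∏ p ∈ t, ((rho F p : ℝ) / p) ^ 2) * ∏ p ∈ P \ t, a p := by
      rw [← prod_add]
      exact prod_congr rfl fun p _ => add_comm _ _
    have e3 : ∏ p ∈ P, (1 + (rho F p : ℝ) ^ 2 / p) = ∑ t ∈ P.powerset, (∏ p ∈ t, ((rho F p : ℝ) ^ 2 / p)) * ∏ p ∈ P \ t, 1 := by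
      rw [← prod_add]
      exact prod_congr rfl fun p _ => add_comm _ _
    rw [e2, e3, mul_sum, ← sum_add_distrib]
    refine sum_le_sum fun t ht => ?_
    rw [mem_powerset] at ht
    have hw := nu_window F t (fun p hp => hP p (ht hp)) H j
    have hd0 : (0 : ℝ) < ∏ p ∈ t, (p : ℝ) := prod_pos fun p hp => hp0 p (ht hp)
    have hA : |∏ p ∈ P \ t, a p| ≤ 1 := by
      rw [abs_prod]
      exact prod_le_one (fun _ _ => abs_nonneg _) fun p hp => ha p (mem_sdiff.1 hp).1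
    have f1 : ∑ n ∈ Icc 1 H, (∏ p ∈ t, ((nu F p ((n : ℤ) - (j : ℤ)) : ℝ) / p)) * ∏ p ∈ P \ t, a p =
        (∑ n ∈ Icc 1 H, ∏ p ∈ t, (nu F p ((n : ℤ) - (j : ℤ)) : ℝ)) / (∏ p ∈ t, (p : ℝ)) * ∏ p ∈ P \ t, a p := by
      rw [sum_div, sum_mul]
      refine sum_congr rfl fun n _ => ?_
      rw [prod_div_distrib]
    have f2 : (∏ p ∈ t, ((rho F p : ℝ) / p) ^ 2) = (∏ p ∈ t, ((rho F p : ℝ) * (rho F p / p))) / (∏ p ∈ t, (p : ℝ)) := by
      rw [← prod_div_distrib]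
      refine prod_congr rfl fun p hp => ?_
      have := hp0 p (ht hp)
      field_simp
    have f3 : (∏ p ∈ t, ((rho F p : ℝ) ^ 2 / p)) = (∏ p ∈ t, ((rho F p : ℝ) * rho F p)) / (∏ p ∈ t, (p : ℝ)) := by
      rw [← prod_div_distrib]
      refine prod_congr rfl fun p hp => ?_
      ring
    rw [f1, f2, f3, prod_const_one, mul_one]
    set T := ∑ n ∈ Icc 1 H, ∏ p ∈ t, (nu F p ((n : ℤ) - (j : ℤ)) : ℝ) with hT
    set K := ∏ p ∈ t, ((rho F p : ℝ) * (rho F p / p)) with hK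
    set d := ∏ p ∈ t, (p : ℝ) with hd
    set A := ∏ p ∈ P \ t, a p with hAd
    have f4 : T / d * A = H * (K / d * A) + (T - H * K) * A / d := by
      field_simp
      ring
    rw [f4]
    refine add_le_add le_rfl ?_
    gcongr
    refine (le_abs_self _).trans ?_
    rw [abs_mul]
    calc |T - H * K| * |A| ≤ (∏ p ∈ t, ((rho F p : ℝ) * rho F p)) * 1 := by gcongr
      _ = _ := mul_one _
  refine (sum_le_sum h1).trans (le_of_eq ?_)
  rw [sum_const, Nat.card_Icc, nsmul_eq_mul, Nat.add_sub_cancel]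
  ring

lemma nu_le (F : ℤ[X]) (p : ℕ) (k : ℤ) : nu F p k ≤ rho F p := by
  rw [← rho_eq]
  unfold nu
  apply card_le_card
  intro x hx
  rw [mem_filter] at hx ⊢
  exact ⟨hx.1, hx.2.1⟩

open Classical in
/-- the number of classes of two shifts -/
lemma nuB_pair (F : ℤ[X]) (p : ℕ) (hp : 1 ≤ p) (i j : ℤ) :
    (nuB (fun p m => (p : ℤ) ∣ F.eval ((m : ℤ) + i) ∨ (p : ℤ) ∣ F.eval ((m : ℤ) + j)) p : ℝ) =
      2 * rho F p - nu F p (j - i) := by
  have h0 : nuB (fun p m => (p : ℤ) ∣ F.eval ((m : ℤ) + i) ∨ (p : ℤ) ∣ F.eval ((m : ℤ) + j)) p =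
      ((range p).filter (fun m : ℕ => (p : ℤ) ∣ F.eval ((m : ℤ) + i) ∨ (p : ℤ) ∣ F.eval ((m : ℤ) + j))).card := by
    unfold nuB
    exact card_inst _ _ _ _
  rw [h0, filter_or]
  have h1 := card_union_add_card_inter ((range p).filter (fun m : ℕ => (p : ℤ) ∣ F.eval ((m : ℤ) + i)))
    ((range p).filter (fun m : ℕ => (p : ℤ) ∣ F.eval ((m : ℤ) + j)))
  have h2 : ∀ c : ℤ, ((range p).filter (fun m : ℕ => (p : ℤ) ∣ F.eval ((m : ℤ) + c))).card = rho F p := by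
    intro c
    rw [← rho_eq, ← card_shift (fun n => (p : ℤ) ∣ F.eval n) p hp (fun n m h => eval_mod F p n m h) c]
  have h3 : ((range p).filter (fun m : ℕ => (p : ℤ) ∣ F.eval ((m : ℤ) + i)) ∩
      (range p).filter (fun m : ℕ => (p : ℤ) ∣ F.eval ((m : ℤ) + j))).card = nu F p (j - i) := by
    rw [← filter_and]
    unfold nu
    rw [← card_shift (fun n => (p : ℤ) ∣ F.eval n ∧ (p : ℤ) ∣ F.eval (n + (j - i))) p hp (fun n m h => by
      rw [eval_mod F p n m h, eval_mod F p (n + (j - i)) (m + (j - i)) (by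
        have : n + (j - i) - (m + (j - i)) = n - m := by ring
        rw [this]; exact h)]) i]
    congr 1
    apply filter_congr
    intro x _
    have : (x : ℤ) + i + (j - i) = x + j := by ring
    rw [this]
  rw [h2, h2, h3] at h1
  have h4 : ((((range p).filter (fun m : ℕ => (p : ℤ) ∣ F.eval ((m : ℤ) + i)) ∪
      (range p).filter (fun m : ℕ => (p : ℤ) ∣ F.eval ((m : ℤ) + j))).card : ℕ) : ℝ) + nu F p (j - i) =
      rho F p + rho F p := by exact_mod_cast h1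
  linarith

open Classical in
lemma perB_pair (F : ℤ[X]) (hF : ∀ p : ℕ, p.Prime → rho F p ≤ 2) (i j : ℤ) :
    PerB (fun p m => (p : ℤ) ∣ F.eval ((m : ℤ) + i) ∨ (p : ℤ) ∣ F.eval ((m : ℤ) + j)) 4 := by
  refine ⟨fun p m => ?_, fun p hp => ?_⟩
  · have hmod : ∀ c : ℤ, (p : ℤ) ∣ ((m : ℤ) + c) - (((m % p : ℕ) : ℤ) + c) := by
      intro c
      have h4 := Nat.div_add_mod m p
      refine ⟨((m / p : ℕ) : ℤ), ?_⟩
      have h5 : ((p * (m / p) + m % p : ℕ) : ℤ) = (m : ℤ) := by rw [h4]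
      push_cast at h5 ⊢
      linarith
    rw [eval_mod F p _ _ (hmod i), eval_mod F p _ _ (hmod j)]
  · have h1 := nuB_pair F p hp.one_lt.le i j
    have h2 : (rho F p : ℝ) ≤ 2 := by exact_mod_cast hF p hp
    have h3 : (0 : ℝ) ≤ nu F p (j - i) := Nat.cast_nonneg _
    have h4 : (nuB (fun p m => (p : ℤ) ∣ F.eval ((m : ℤ) + i) ∨ (p : ℤ) ∣ F.eval ((m : ℤ) + j)) p : ℝ) ≤ 4 := by linarith
    exact_mod_cast h4

open Classical in
/-- the indicator of the rough values -/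
noncomputable def rg (z : ℕ) (F : ℤ[X]) (n : ℤ) : ℝ := if ∀ p ∈ pz z, ¬ (p : ℤ) ∣ F.eval n then 1 else 0

/-- **the second moment of the model** -/
theorem var_model (E U : ℕ) : ∀ᶠ x : ℕ in atTop, ∀ z : ℕ, 1 ≤ z → (z : ℝ) ≤ Real.log x ^ E →
    ∀ F : ℤ[X], (∀ p : ℕ, p.Prime → rho F p ≤ 2) → ∀ H : ℕ,
    ∑ M ∈ Icc 1 x, (∑ j ∈ Icc 1 H, (rg z F ((M : ℤ) + (j : ℤ)) - PP z F)) ^ 2 ≤
      x * H * ∏ p ∈ pz z, (1 + (rho F p : ℝ) ^ 2 / p) + 3 * x * (H : ℝ) ^ 2 / Real.log x ^ U := by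
  classical
  obtain ⟨N0, h0⟩ := sys_count 4 E U (by norm_num)
  filter_upwards [eventually_ge_atTop N0, evt_log_ge 1] with x hx hL z hz hzE F hF H
  set L := Real.log x with hLd
  have hL0 : 0 < L := by linarith
  set κ := PP z F with hκ
  have hp0 : ∀ p ∈ pz z, (0 : ℝ) < p := fun p hp => by exact_mod_cast (mem_pz.1 hp).2.pos
  have hrp : ∀ p ∈ pz z, 0 ≤ (rho F p : ℝ) / p ∧ (rho F p : ℝ) / p ≤ 1 := by
    intro p hp
    refine ⟨by positivity, ?_⟩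
    rw [div_le_one (hp0 p hp), ← rho_eq]
    have := card_filter_le (range p) (fun k : ℕ => (p : ℤ) ∣ F.eval (k : ℤ))
    rw [card_range] at this
    exact_mod_cast this
  have hκ01 : 0 ≤ κ ∧ κ ≤ 1 := by
    constructor
    · exact prod_nonneg fun p hp => by have := hrp p hp; linarith
    · exact prod_le_one (fun p hp => by have := hrp p hp; linarith) fun p hp => by have := hrp p hp; linarith
  -- pairs
  have hpair : ∀ i j : ℕ, ∑ M ∈ Icc 1 x, rg z F ((M : ℤ) + (i : ℤ)) * rg z F ((M : ℤ) + (j : ℤ)) ≤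
      x * ∏ p ∈ pz z, ((1 - 2 * ((rho F p : ℝ) / p)) + (nu F p ((j : ℤ) - (i : ℤ)) : ℝ) / p) + x / L ^ U := by
    intro i j
    obtain ⟨Q, hQ⟩ : ∃ Q : ℕ → ℕ → Prop, Q = fun (p m : ℕ) => (p : ℤ) ∣ F.eval ((m : ℤ) + i) ∨ (p : ℤ) ∣ F.eval ((m : ℤ) + j) :=
      ⟨_, rfl⟩
    have hPB : PerB Q 4 := by rw [hQ]; exact perB_pair F hF i j
    have h1 := h0 x hx z hz hzE Q hPB
    have h2 : ∑ M ∈ Icc 1 x, rg z F ((M : ℤ) + (i : ℤ)) * rg z F ((M : ℤ) + (j : ℤ)) =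
        ((((Icc 1 x).filter (fun n : ℕ => ∀ p ∈ pz z, ¬ Q p n)).card : ℕ) : ℝ) := by
      rw [card_filter]
      push_cast
      refine sum_congr rfl fun M _ => ?_
      unfold rg
      by_cases ha : ∀ p ∈ pz z, ¬ (p : ℤ) ∣ F.eval ((M : ℤ) + i)
      · by_cases hb : ∀ p ∈ pz z, ¬ (p : ℤ) ∣ F.eval ((M : ℤ) + j)
        · rw [if_pos ha, if_pos hb, if_pos (fun p hp h => by
            rw [hQ] at h
            exact h.elim (ha p hp) (hb p hp)), mul_one]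
        · rw [if_neg hb, mul_zero, if_neg]
          intro h
          exact hb fun p hp hd => h p hp (by rw [hQ]; exact Or.inr hd)
      · rw [if_neg ha, zero_mul, if_neg]
        intro h
        exact ha fun p hp hd => h p hp (by rw [hQ]; exact Or.inl hd)
    have h3 : ∏ p ∈ pz z, (1 - (nuB Q p : ℝ) / p) =
        ∏ p ∈ pz z, ((1 - 2 * ((rho F p : ℝ) / p)) + (nu F p ((j : ℤ) - (i : ℤ)) : ℝ) / p) := by
      refine prod_congr rfl fun p hp => ?_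
      rw [hQ, nuB_pair F p (mem_pz.1 hp).2.one_lt.le i j]
      ring
    rw [h3] at h1
    rw [h2]
    have := (abs_le.1 h1).2
    linarith
  -- single
  have hsing : ∀ j : ℕ, x * κ - x / L ^ U ≤ ∑ M ∈ Icc 1 x, rg z F ((M : ℤ) + (j : ℤ)) := by
    intro j
    obtain ⟨Q, hQ⟩ : ∃ Q : ℕ → ℕ → Prop, Q = fun (p m : ℕ) => (p : ℤ) ∣ F.eval ((m : ℤ) + j) ∨ (p : ℤ) ∣ F.eval ((m : ℤ) + j) :=
      ⟨_, rfl⟩
    have hPB : PerB Q 4 := by rw [hQ]; exact perB_pair F hF j j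
    have h1 := h0 x hx z hz hzE Q hPB
    have h2 : ∑ M ∈ Icc 1 x, rg z F ((M : ℤ) + (j : ℤ)) =
        ((((Icc 1 x).filter (fun n : ℕ => ∀ p ∈ pz z, ¬ Q p n)).card : ℕ) : ℝ) := by
      rw [card_filter]
      push_cast
      refine sum_congr rfl fun M _ => ?_
      unfold rg
      by_cases ha : ∀ p ∈ pz z, ¬ (p : ℤ) ∣ F.eval ((M : ℤ) + j)
      · rw [if_pos ha, if_pos (fun p hp h => by
            rw [hQ] at h
            exact h.elim (ha p hp) (ha p hp))]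
      · rw [if_neg ha, if_neg]
        intro h
        exact ha fun p hp hd => h p hp (by rw [hQ]; exact Or.inl hd)
    have h3 : ∏ p ∈ pz z, (1 - (nuB Q p : ℝ) / p) = κ := by
      rw [hκ]
      unfold PP
      refine prod_congr rfl fun p hp => ?_
      rw [hQ, nuB_pair F p (mem_pz.1 hp).2.one_lt.le j j, sub_self]
      have h4 : nu F p 0 = rho F p := by
        rw [← rho_eq]
        unfold nu
        simp
      rw [h4]
      ring
    rw [h3] at h1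
    rw [h2]
    have := (abs_le.1 h1).1
    linarith
  have hexp : ∑ M ∈ Icc 1 x, (∑ j ∈ Icc 1 H, (rg z F ((M : ℤ) + (j : ℤ)) - κ)) ^ 2 =
      ∑ i ∈ Icc 1 H, ∑ j ∈ Icc 1 H, ∑ M ∈ Icc 1 x, rg z F ((M : ℤ) + (i : ℤ)) * rg z F ((M : ℤ) + (j : ℤ)) -
      2 * κ * H * ∑ j ∈ Icc 1 H, ∑ M ∈ Icc 1 x, rg z F ((M : ℤ) + (j : ℤ)) + x * (H * κ) ^ 2 := by
    have e1 : ∀ M ∈ Icc 1 x, (∑ j ∈ Icc 1 H, (rg z F ((M : ℤ) + (j : ℤ)) - κ)) ^ 2 =
        ∑ i ∈ Icc 1 H, ∑ j ∈ Icc 1 H, rg z F ((M : ℤ) + (i : ℤ)) * rg z F ((M : ℤ) + (j : ℤ)) -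
        2 * κ * H * ∑ j ∈ Icc 1 H, rg z F ((M : ℤ) + (j : ℤ)) + (H * κ) ^ 2 := by
      intro M _
      rw [sum_sub_distrib, sum_const, Nat.card_Icc, nsmul_eq_mul, Nat.add_sub_cancel, ← sum_mul_sum]
      ring
    rw [sum_congr rfl e1, sum_add_distrib, sum_sub_distrib, sum_const, Nat.card_Icc, nsmul_eq_mul, Nat.add_sub_cancel,
      ← mul_sum, sum_comm (s := Icc 1 x) (t := Icc 1 H)]
    congr 2
    · refine sum_congr rfl fun i _ => ?_
      rw [sum_comm]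
    · rw [sum_comm]
  rw [hexp]
  have b1 : ∑ i ∈ Icc 1 H, ∑ j ∈ Icc 1 H, ∑ M ∈ Icc 1 x, rg z F ((M : ℤ) + (i : ℤ)) * rg z F ((M : ℤ) + (j : ℤ)) ≤
      x * ((H : ℝ) ^ 2 * κ ^ 2 + H * ∏ p ∈ pz z, (1 + (rho F p : ℝ) ^ 2 / p)) + (H : ℝ) ^ 2 * (x / L ^ U) := by
    have c1 := pair_sum F (pz z) (fun p hp => (mem_pz.1 hp).2) (fun p => 1 - 2 * ((rho F p : ℝ) / p)) (fun p hp => by
      have := hrp p hp
      rw [abs_le]
      constructor <;> linarith) H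
    have c2 : ∏ p ∈ pz z, ((1 - 2 * ((rho F p : ℝ) / p)) + ((rho F p : ℝ) / p) ^ 2) = κ ^ 2 := by
      rw [hκ]
      unfold PP
      rw [← prod_pow]
      refine prod_congr rfl fun p _ => ?_
      ring
    rw [c2] at c1
    calc _ ≤ ∑ i ∈ Icc 1 H, ∑ j ∈ Icc 1 H,
          (x * ∏ p ∈ pz z, ((1 - 2 * ((rho F p : ℝ) / p)) + (nu F p ((j : ℤ) - (i : ℤ)) : ℝ) / p) + x / L ^ U) :=
          sum_le_sum fun i _ => sum_le_sum fun j _ => hpair i j
      _ = x * (∑ i ∈ Icc 1 H, ∑ j ∈ Icc 1 H, ∏ p ∈ pz z, ((1 - 2 * ((rho F p : ℝ) / p)) + (nu F p ((j : ℤ) - (i : ℤ)) : ℝ) / p)) +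
            (H : ℝ) ^ 2 * (x / L ^ U) := by
          simp only [sum_add_distrib, sum_const, Nat.card_Icc, nsmul_eq_mul, Nat.add_sub_cancel, mul_sum]
          ring
      _ ≤ _ := by
          gcongr
  have b2 : H * (x * κ - x / L ^ U) ≤ ∑ j ∈ Icc 1 H, ∑ M ∈ Icc 1 x, rg z F ((M : ℤ) + (j : ℤ)) := by
    calc H * (x * κ - x / L ^ U) = ∑ j ∈ Icc 1 H, (x * κ - x / L ^ U) := by
          rw [sum_const, Nat.card_Icc, nsmul_eq_mul, Nat.add_sub_cancel]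
      _ ≤ _ := sum_le_sum fun j _ => hsing j
  have b3 : 2 * κ * H * (H * (x * κ - x / L ^ U)) ≤
      2 * κ * H * ∑ j ∈ Icc 1 H, ∑ M ∈ Icc 1 x, rg z F ((M : ℤ) + (j : ℤ)) := by
    have : 0 ≤ 2 * κ * H := by
      have := hκ01.1
      positivity
    exact mul_le_mul_of_nonneg_left b2 this
  have b4 : 2 * κ * H * (H * (x / L ^ U)) ≤ 2 * 1 * H * (H * (x / L ^ U)) := by
    have := hκ01.2
    gcongr
  have e5 : 3 * (x : ℝ) * (H : ℝ) ^ 2 / L ^ U = (H : ℝ) ^ 2 * (x / L ^ U) + 2 * 1 * H * (H * (x / L ^ U)) := by ring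
  rw [e5]
  nlinarith [b1, b3, b4]

end Pool.Agent.H43.SW
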