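import Pool.Agent.H43.SW.Mom3
import Pool.Agent.H43.SW.Var
import Pool.Agent.H43.SW.Wt

/-!
Splitting the sums over short windows.
-/

set_option autoImplicit false

namespace Pool.Agent.H43.SW

open Finset Filter Polynomial
open Pool.Agent.H43.SL
open Pool.Agent.H300R2.BH (rho SS)
open Pool.Agent.H373R2.T7 (lamz Vz pz mem_pz Vz_pos)
open Pool.Agent.W80.EC (q2 q2_eval)
open Pool.Agent.W81.R1 (gI PP thw gI_eq SS_eq_PP rho_le_two)

lemma rho_two (a : ℤ) (p : ℕ) (hp : p.Prime) : rho (q2 1 0 a) p ≤ 2 := rho_le_two (by simp) p hp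

lemma Wn_Sx (z : ℕ) (s a : ℤ) (H : ℕ) (M : ℤ) : Wn (gI z) s H (s * a) M = Sx (fun n => gI z (s * a + s * n ^ 2)) H M := by
  unfold Wn Sx
  symm
  refine sum_nbij' (fun j : ℕ => (j : ℤ)) (fun j : ℤ => j.toNat) ?_ ?_ ?_ ?_ ?_
  · intro j hj; rw [mem_Icc] at hj ⊢; omega
  · intro j hj; rw [mem_Icc] at hj ⊢; omega
  · intro j _; simp
  · intro j hj; rw [mem_Icc] at hj; exact Int.toNat_of_nonneg (by omega)
  · intro j _; rfl

/-- the pointwise splitting -/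
lemma pt_split (z : ℕ) (s a n : ℤ) (h : ℝ) (hs : s = 1 ∨ s = -1) (hn : 1 ≤ s * a + s * n ^ 2) :
    th a n - h = gI z (s * a + s * n ^ 2) + (Vz z)⁻¹ * (rg z (q2 1 0 a) n - PP z (q2 1 0 a)) +
      (SS z (q2 1 0 a) - h) := by
  have h1 := gI_eq z _ hn
  have h2 : (∀ p ∈ pz z, ¬ (p : ℤ) ∣ s * a + s * n ^ 2) ↔ (∀ p ∈ pz z, ¬ (p : ℤ) ∣ (q2 1 0 a).eval n) := by
    have e : (q2 1 0 a).eval n = n ^ 2 + a := by rw [q2_eval]; ring
    rw [e]
    have : ∀ p : ℕ, (p : ℤ) ∣ s * a + s * n ^ 2 ↔ (p : ℤ) ∣ n ^ 2 + a := by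
      intro p
      rcases hs with rfl | rfl
      · rw [one_mul, one_mul, add_comm]
      · have : -1 * a + -1 * n ^ 2 = -(n ^ 2 + a) := by ring
        rw [this, dvd_neg]
    simp only [this]
  have h3 : thw (s * a + s * n ^ 2) = th a n := by
    unfold thw th
    have e1 : (s * a + s * n ^ 2).toNat = (n ^ 2 + a).natAbs := by
      rcases hs with rfl | rfl
      · rw [one_mul, one_mul] at hn ⊢
        omega
      · have : -1 * a + -1 * n ^ 2 = -(n ^ 2 + a) := by ring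
        rw [this] at hn ⊢
        omega
    have e2 : ((s * a + s * n ^ 2 : ℤ) : ℝ) = |((n ^ 2 + a : ℤ) : ℝ)| := by
      rcases hs with rfl | rfl
      · rw [one_mul, one_mul] at hn ⊢
        have : (0 : ℝ) ≤ ((n ^ 2 + a : ℤ) : ℝ) := by exact_mod_cast (by omega : 0 ≤ n ^ 2 + a)
        rw [abs_of_nonneg this]
        push_cast
        ring
      · have e3 : -1 * a + -1 * n ^ 2 = -(n ^ 2 + a) := by ring
        rw [e3] at hn ⊢
        have : ((n ^ 2 + a : ℤ) : ℝ) ≤ 0 := by exact_mod_cast (by omega : n ^ 2 + a ≤ 0)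
        rw [abs_of_nonpos this]
        push_cast
        ring
    rw [e1, e2]
  rw [h1, h3, SS_eq_PP]
  unfold rg
  by_cases hc : ∀ p ∈ pz z, ¬ (p : ℤ) ∣ (q2 1 0 a).eval n
  · rw [if_pos (h2.2 hc), if_pos hc]
    ring
  · rw [if_neg (fun h' => hc (h2.1 h')), if_neg hc]
    ring

/-- windows where the sign changes -/
lemma cross (a : ℤ) (ha : ¬ IsSquare (-a)) (T : Finset ℕ) (H : ℕ)
    (hT : ∀ M ∈ T, (¬ ∀ n ∈ Ioc M (M + H), 1 ≤ (n : ℤ) ^ 2 + a) ∧ (¬ ∀ n ∈ Ioc M (M + H), (n : ℤ) ^ 2 + a ≤ -1)) :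
    T.card ≤ H := by
  set t := Nat.sqrt (-a).toNat with ht
  have hsub : T ⊆ Ico (t + 1 - H) t := by
    intro M hM
    obtain ⟨h1, h2⟩ := hT M hM
    push Not at h1 h2
    obtain ⟨n, hn, hn'⟩ := h1
    obtain ⟨m, hm, hm'⟩ := h2
    rw [mem_Ioc] at hn hm
    have e1 : n ≤ t := by
      rw [ht, Nat.le_sqrt]
      have : (n : ℤ) ^ 2 ≤ ((-a).toNat : ℤ) := by omega
      have h3 : n ^ 2 ≤ (-a).toNat := by exact_mod_cast this
      rw [sq] at h3
      exact h3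
    have e2 : t < m := by
      rw [ht, Nat.sqrt_lt']
      have hne : (m : ℤ) ^ 2 + a ≠ 0 := by
        intro h0
        exact ha ⟨(m : ℤ), by linarith⟩
      have h4 : 1 ≤ (m : ℤ) ^ 2 + a := by omega
      have h5 : (((-a).toNat : ℕ) : ℤ) < ((m ^ 2 : ℕ) : ℤ) := by
        push_cast
        have := sq_nonneg (m : ℤ)
        have h6 : 0 < (m : ℤ) ^ 2 := by
          have : 0 < m := by omega
          positivity
        omega
      exact_mod_cast h5
    rw [mem_Ico]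
    omega
  have h1 := card_le_card hsub
  rw [Nat.card_Ico] at h1
  omega

/-- **splitting the first moments** -/
theorem split1 (z : ℕ) (a : ℤ) (ha : ¬ IsSquare (-a)) (h Pm : ℝ) (N H : ℕ)
    (hP : ∀ n : ℕ, N ≤ n → n ≤ 3 * N + H → |th a n - h| ≤ Pm) :
    ∑ M ∈ Ico N (3 * N), |Sx (fun n => th a n - h) H (M : ℤ)| ≤
      ∑ M ∈ Ico N (3 * N), |Wn (gI z) 1 H (1 * a) (M : ℤ)| + ∑ M ∈ Ico N (3 * N), |Wn (gI z) (-1) H (-1 * a) (M : ℤ)| +
      (Vz z)⁻¹ * ∑ M ∈ Ico N (3 * N), |Sx (fun n => rg z (q2 1 0 a) n - PP z (q2 1 0 a)) H (M : ℤ)| +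
      2 * N * (H * |SS z (q2 1 0 a) - h|) + H * (H * Pm) := by
  classical
  have hPm : 0 ≤ Pm := (abs_nonneg _).trans (hP N le_rfl (by omega))
  have hv : 0 ≤ (Vz z)⁻¹ := (inv_pos.2 (Vz_pos z)).le
  set Cr := (Ico N (3 * N)).filter (fun M => (¬ ∀ n ∈ Ioc M (M + H), 1 ≤ (n : ℤ) ^ 2 + a) ∧
    (¬ ∀ n ∈ Ioc M (M + H), (n : ℤ) ^ 2 + a ≤ -1)) with hCr
  have hCrc : (Cr.card : ℝ) ≤ H := by
    exact_mod_cast cross a ha Cr H fun M hM => (mem_filter.1 hM).2
  have hgood : ∀ s : ℤ, (s = 1 ∨ s = -1) → ∀ M : ℕ, (∀ n ∈ Ioc M (M + H), 1 ≤ s * a + s * (n : ℤ) ^ 2) →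
      |Sx (fun n => th a n - h) H (M : ℤ)| ≤ |Wn (gI z) s H (s * a) (M : ℤ)| +
        (Vz z)⁻¹ * |Sx (fun n => rg z (q2 1 0 a) n - PP z (q2 1 0 a)) H (M : ℤ)| + H * |SS z (q2 1 0 a) - h| := by
    intro s hs M hM
    have e : Sx (fun n => th a n - h) H (M : ℤ) = Wn (gI z) s H (s * a) (M : ℤ) +
        (Vz z)⁻¹ * Sx (fun n => rg z (q2 1 0 a) n - PP z (q2 1 0 a)) H (M : ℤ) + H * (SS z (q2 1 0 a) - h) := by
      rw [Wn_Sx]
      unfold Sx
      have e1 : (H : ℝ) * (SS z (q2 1 0 a) - h) = ∑ j ∈ Icc 1 H, (SS z (q2 1 0 a) - h) := by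
        rw [sum_const, Nat.card_Icc, nsmul_eq_mul, Nat.add_sub_cancel]
      rw [e1, mul_sum, ← sum_add_distrib, ← sum_add_distrib]
      refine sum_congr rfl fun j hj => ?_
      rw [mem_Icc] at hj
      apply pt_split z s a _ h hs
      have := hM (M + j) (by rw [mem_Ioc]; omega)
      push_cast at this
      exact this
    rw [e]
    refine (abs_add_le _ _).trans (add_le_add ((abs_add_le _ _).trans (add_le_add le_rfl (le_of_eq ?_))) (le_of_eq ?_))
    · rw [abs_mul, abs_of_nonneg hv]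
    · rw [abs_mul, Nat.abs_cast]
  have hpt : ∀ M ∈ Ico N (3 * N), |Sx (fun n => th a n - h) H (M : ℤ)| ≤
      |Wn (gI z) 1 H (1 * a) (M : ℤ)| + |Wn (gI z) (-1) H (-1 * a) (M : ℤ)| +
      (Vz z)⁻¹ * |Sx (fun n => rg z (q2 1 0 a) n - PP z (q2 1 0 a)) H (M : ℤ)| + H * |SS z (q2 1 0 a) - h| +
      (if M ∈ Cr then H * Pm else 0) := by
    intro M hM
    have p1 := abs_nonneg (Wn (gI z) 1 H (1 * a) (M : ℤ))
    have p2 := abs_nonneg (Wn (gI z) (-1) H (-1 * a) (M : ℤ))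
    have p3 : 0 ≤ (Vz z)⁻¹ * |Sx (fun n => rg z (q2 1 0 a) n - PP z (q2 1 0 a)) H (M : ℤ)| := by positivity
    have p4 : 0 ≤ (H : ℝ) * |SS z (q2 1 0 a) - h| := by positivity
    have p5 : 0 ≤ (if M ∈ Cr then H * Pm else 0) := by split_ifs <;> positivity
    by_cases c1 : ∀ n ∈ Ioc M (M + H), 1 ≤ (n : ℤ) ^ 2 + a
    · have := hgood 1 (Or.inl rfl) M (fun n hn => by have := c1 n hn; linarith)
      linarith
    · by_cases c2 : ∀ n ∈ Ioc M (M + H), (n : ℤ) ^ 2 + a ≤ -1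
      · have := hgood (-1) (Or.inr rfl) M (fun n hn => by have := c2 n hn; linarith)
        linarith
      · have hMC : M ∈ Cr := by rw [hCr, mem_filter]; exact ⟨hM, c1, c2⟩
        rw [if_pos hMC]
        have : |Sx (fun n => th a n - h) H (M : ℤ)| ≤ H * Pm := by
          unfold Sx
          refine (abs_sum_le_sum_abs _ _).trans ?_
          calc ∑ j ∈ Icc 1 H, |th a ((M : ℤ) + (j : ℕ)) - h| ≤ ∑ j ∈ Icc 1 H, Pm := by
                refine sum_le_sum fun j hj => ?_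
                rw [mem_Icc] at hj
                rw [mem_Ico] at hM
                have := hP (M + j) (by omega) (by omega)
                exact_mod_cast this
            _ = H * Pm := by rw [sum_const, Nat.card_Icc, nsmul_eq_mul, Nat.add_sub_cancel]
        linarith
  refine (sum_le_sum hpt).trans ?_
  rw [sum_add_distrib, sum_add_distrib, sum_add_distrib, sum_add_distrib, ← mul_sum, sum_const, Nat.card_Ico, nsmul_eq_mul]
  have e1 : ((3 * N - N : ℕ) : ℝ) = 2 * N := by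
    have : 3 * N - N = 2 * N := by omega
    rw [this]
    push_cast
    ring
  rw [e1]
  have e2 : ∑ M ∈ Ico N (3 * N), (if M ∈ Cr then (H : ℝ) * Pm else 0) ≤ H * (H * Pm) := by
    rw [← sum_filter, sum_const, nsmul_eq_mul]
    have h1 : ((((Ico N (3 * N)).filter (fun M => M ∈ Cr)).card : ℕ) : ℝ) ≤ H := by
      refine le_trans ?_ hCrc
      exact_mod_cast card_le_card (fun M hM => (mem_filter.1 hM).2)
    gcongr
  linarith

end Pool.Agent.H43.SW
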